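import Pool.Agent.TH998.Mex.Up2

/-!
# Expansions: cleaning a 3-graph and embedding in its shadow graph
-/

set_option autoImplicit false

namespace Pool.Agent.TH998.Exp

open Finset Pool.Agent.TH998.Mex

variable {V : Type} [Fintype V] [DecidableEq V]

/-- the third vertices of the triples containing `x` and `y` -/
def third (H : Finset (Finset V)) (x y : V) : Finset V :=
  univ.filter fun z => ({x, y, z} : Finset V) ∈ H

theorem mem_third {H : Finset (Finset V)} {x y z : V} :
    z ∈ third H x y ↔ ({x, y, z} : Finset V) ∈ H := by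
  unfold third
  rw [Finset.mem_filter]
  simp

/-- the pairs covered -/
def pairs (H : Finset (Finset V)) : Finset (V × V) :=
  univ.filter fun p => p.1 ≠ p.2 ∧ ∃ e ∈ H, p.1 ∈ e ∧ p.2 ∈ e

theorem exists_third {H : Finset (Finset V)} (hH : ∀ e ∈ H, e.card = 3) {x y : V} (hxy : x ≠ y)
    {e : Finset V} (he : e ∈ H) (hx : x ∈ e) (hy : y ∈ e) : ∃ z, e = {x, y, z} := by
  have h1 : ({x, y} : Finset V) ⊆ e := by
    intro w hw
    rw [Finset.mem_insert, Finset.mem_singleton] at hw
    rcases hw with rfl | rfl
    · exact hx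
    · exact hy
  have h2 : (e \ {x, y}).card = 1 := by
    rw [Finset.card_sdiff_of_subset h1, hH e he, Finset.card_pair hxy]
  obtain ⟨z, hz⟩ := Finset.card_eq_one.1 h2
  refine ⟨z, ?_⟩
  have h3 := Finset.union_sdiff_of_subset h1
  rw [hz] at h3
  rw [← h3]
  ext w
  simp only [Finset.mem_union, Finset.mem_insert, Finset.mem_singleton]
  tauto

theorem clean (D : ℕ) : ∀ (k : ℕ) (H : Finset (Finset V)), (∀ e ∈ H, e.card = 3) →
    (pairs H).card ≤ k → ∃ H' ⊆ H, H.card ≤ H'.card + D * k ∧
      ∀ x y, x ≠ y → (∃ e ∈ H', x ∈ e ∧ y ∈ e) → D ≤ (third H' x y).card := by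
  intro k
  induction k with
  | zero =>
    intro H hH hk
    refine ⟨H, subset_rfl, Nat.le_add_right _ _, ?_⟩
    intro x y hxy he
    have h1 : (x, y) ∈ pairs H := by
      unfold pairs
      rw [Finset.mem_filter]
      exact ⟨Finset.mem_univ _, hxy, he⟩
    have := Finset.card_pos.2 ⟨_, h1⟩
    omega
  | succ k ih =>
    intro H hH hk
    by_cases hgood : ∀ x y, x ≠ y → (∃ e ∈ H, x ∈ e ∧ y ∈ e) → D ≤ (third H x y).card
    · exact ⟨H, subset_rfl, Nat.le_add_right _ _, hgood⟩
    · push Not at hgood
      obtain ⟨x, y, hxy, he, hlt⟩ := hgood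
      set H1 := H.filter (fun e => ¬ (x ∈ e ∧ y ∈ e)) with hH1
      have hsub : H1 ⊆ H := Finset.filter_subset _ _
      have hp : (pairs H1).card ≤ k := by
        have h1 : pairs H1 ⊆ (pairs H).erase (x, y) := by
          intro p hp
          unfold pairs at hp
          rw [Finset.mem_filter] at hp
          obtain ⟨_, hne, e, heH, h1, h2⟩ := hp
          rw [Finset.mem_erase]
          constructor
          · rintro rfl
            exact (Finset.mem_filter.1 heH).2 ⟨h1, h2⟩
          · unfold pairs
            rw [Finset.mem_filter]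
            exact ⟨Finset.mem_univ _, hne, e, hsub heH, h1, h2⟩
        have h2 : (x, y) ∈ pairs H := by
          unfold pairs
          rw [Finset.mem_filter]
          exact ⟨Finset.mem_univ _, hxy, he⟩
        have h3 := Finset.card_le_card h1
        rw [Finset.card_erase_of_mem h2] at h3
        omega
      have hcard : H.card ≤ H1.card + D := by
        have h1 : H.filter (fun e => x ∈ e ∧ y ∈ e) ⊆
            (third H x y).image (fun z => ({x, y, z} : Finset V)) := by
          intro e he
          rw [Finset.mem_filter] at he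
          obtain ⟨z, hz⟩ := exists_third hH hxy he.1 he.2.1 he.2.2
          rw [Finset.mem_image]
          refine ⟨z, ?_, hz.symm⟩
          rw [mem_third, ← hz]
          exact he.1
        have h2 := (Finset.card_le_card h1).trans Finset.card_image_le
        have h3 : (H.filter (fun e => x ∈ e ∧ y ∈ e)).card + H1.card = H.card := by
          rw [hH1]
          convert Finset.card_filter_add_card_filter_not (s := H) (fun e => x ∈ e ∧ y ∈ e)
        omega
      obtain ⟨H', hH', hc, hg⟩ := ih H1 (fun e he => hH e (hsub he)) hp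
      refine ⟨H', hH'.trans hsub, ?_, hg⟩
      calc H.card ≤ H1.card + D := hcard
        _ ≤ (H'.card + D * k) + D := Nat.add_le_add_right hc _
        _ = _ := by ring

/-- the shadow graph -/
def shadowG (H : Finset (Finset V)) : SimpleGraph V where
  Adj x y := x ≠ y ∧ ∃ e ∈ H, x ∈ e ∧ y ∈ e
  symm := ⟨fun x y h => ⟨h.1.symm, by
    obtain ⟨e, he, h1, h2⟩ := h.2
    exact ⟨e, he, h2, h1⟩⟩⟩
  loopless := ⟨fun x h => h.1 rfl⟩

theorem card_le_cl {H : Finset (Finset V)} (hH : ∀ e ∈ H, e.card = 3) :
    H.card ≤ cl (shadowG H) 3 univ := by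
  unfold cl
  apply Finset.card_le_card
  intro e he
  rw [mem_cls]
  refine ⟨Finset.subset_univ _, hH e he, ?_⟩
  intro x hx y hy hxy
  exact ⟨hxy, e, he, hx, hy⟩

theorem third_sub {H : Finset (Finset V)} (hH : ∀ e ∈ H, e.card = 3) (x y : V) (hxy : x ≠ y) :
    ∀ z ∈ third H x y, (shadowG H).Adj x z ∧ (shadowG H).Adj y z := by
  intro z hz
  rw [mem_third] at hz
  have h3 := hH _ hz
  have hxz : x ≠ z := by
    rintro rfl
    have : ({x, y, x} : Finset V) = {x, y} := by
      ext w
      simp only [Finset.mem_insert, Finset.mem_singleton]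
      tauto
    rw [this, Finset.card_pair hxy] at h3
    omega
  have hyz : y ≠ z := by
    rintro rfl
    have : ({x, y, y} : Finset V) = {x, y} := by
      ext w
      simp only [Finset.mem_insert, Finset.mem_singleton]
      tauto
    rw [this, Finset.card_pair hxy] at h3
    omega
  exact ⟨⟨hxz, _, hz, by simp, by simp⟩, ⟨hyz, _, hz, by simp, by simp⟩⟩

/-- a copy of `G` in the shadow graph extends to a copy of the expansion -/
theorem expand {W : Type} [Fintype W] (G : SimpleGraph W) [Fintype G.edgeSet]
    {H : Finset (Finset V)}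
    (hD : ∀ x y, x ≠ y → (∃ e ∈ H, x ∈ e ∧ y ∈ e) →
      Fintype.card W + Fintype.card G.edgeSet ≤ (third H x y).card)
    (f : W → V) (hadj : ∀ x y, G.Adj x y → (shadowG H).Adj (f x) (f y)) :
    ∃ z : G.edgeSet → V, Function.Injective z ∧ (∀ w e, f w ≠ z e) ∧
      ∀ (x y : W) (h : G.Adj x y), ({f x, f y, z ⟨s(x, y), h⟩} : Finset V) ∈ H := by
  classical
  have hsel : ∀ e : G.edgeSet, ∃ p : W × W, s(p.1, p.2) = (e : Sym2 W) := by
    intro e
    induction e.1 using Sym2.ind with
    | _ x y => exact ⟨(x, y), rfl⟩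
  choose p hp using hsel
  have hpadj : ∀ e, G.Adj (p e).1 (p e).2 := by
    intro e
    have := e.2
    rw [← hp e] at this
    exact this
  let A : G.edgeSet → Finset V := fun e => third H (f (p e).1) (f (p e).2) \ univ.image f
  have hA : ∀ e, Fintype.card G.edgeSet ≤ (A e).card := by
    intro e
    have h1 := hadj _ _ (hpadj e)
    have h2 := hD _ _ h1.1 h1.2
    have h3 := Finset.le_card_sdiff (univ.image f) (third H (f (p e).1) (f (p e).2))
    have h4 : (univ.image f).card ≤ Fintype.card W := Finset.card_image_le.trans (by simp)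
    show Fintype.card G.edgeSet ≤ (third H (f (p e).1) (f (p e).2) \ univ.image f).card
    omega
  obtain ⟨z, hz1, hz2⟩ := (Finset.all_card_le_biUnion_card_iff_exists_injective A).1 (by
    intro s
    rcases s.eq_empty_or_nonempty with rfl | ⟨e, he⟩
    · simp
    · calc s.card ≤ Fintype.card G.edgeSet := Finset.card_le_univ _
        _ ≤ (A e).card := hA e
        _ ≤ (s.biUnion A).card := Finset.card_le_card (Finset.subset_biUnion_of_mem A he))
  refine ⟨z, hz1, ?_, ?_⟩
  · intro w e hwe
    have h1 := (Finset.mem_sdiff.1 (hz2 e)).2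
    apply h1
    rw [← hwe]
    exact Finset.mem_image_of_mem _ (Finset.mem_univ _)
  · intro x y h
    have h1 := (Finset.mem_sdiff.1 (hz2 ⟨s(x, y), h⟩)).1
    rw [mem_third] at h1
    have h2 := hp ⟨s(x, y), h⟩
    simp only at h2
    rw [Sym2.eq_iff] at h2
    rcases h2 with ⟨h3, h4⟩ | ⟨h3, h4⟩
    · rw [h3, h4] at h1
      exact h1
    · rw [h3, h4] at h1
      have : ({f x, f y, z ⟨s(x, y), h⟩} : Finset V) = {f y, f x, z ⟨s(x, y), h⟩} := by
        ext w
        simp only [Finset.mem_insert, Finset.mem_singleton]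
        tauto
      rw [this]
      exact h1

/-- extending a partial injection -/
theorem ext_inj {W : Type} [Fintype W] [DecidableEq W] (S : Finset W) (f0 : W → V)
    (h0 : Set.InjOn f0 S) (A : Finset V) (hA : 2 * Fintype.card W ≤ A.card) :
    ∃ f : W → V, Function.Injective f ∧ (∀ w ∈ S, f w = f0 w) ∧ ∀ w ∉ S, f w ∈ A := by
  classical
  have h1 : Fintype.card W ≤ (A \ S.image f0).card := by
    have h2 := Finset.le_card_sdiff (S.image f0) A
    have h3 : (S.image f0).card ≤ Fintype.card W :=
      Finset.card_image_le.trans (Finset.card_le_univ _)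
    omega
  obtain ⟨g⟩ : Nonempty (W ↪ (A \ S.image f0 : Finset V)) :=
    Function.Embedding.nonempty_of_card_le (by rw [Fintype.card_coe]; exact h1)
  refine ⟨fun w => if w ∈ S then f0 w else g w, ?_, ?_, ?_⟩
  · intro u v huv
    by_cases hu : u ∈ S <;> by_cases hv : v ∈ S <;> simp only [hu, hv, if_true, if_false] at huv
    · exact h0 hu hv huv
    · exfalso
      have := (Finset.mem_sdiff.1 (g v).2).2
      apply this
      rw [← huv]
      exact Finset.mem_image_of_mem _ hu
    · exfalso
      have := (Finset.mem_sdiff.1 (g u).2).2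
      apply this
      rw [huv]
      exact Finset.mem_image_of_mem _ hv
    · exact g.injective (Subtype.ext huv)
  · intro w hw
    simp only [hw, if_true]
  · intro w hw
    simp only [hw, if_false]
    exact (Finset.mem_sdiff.1 (g w).2).1

end Pool.Agent.TH998.Exp
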