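import Pool.Agent.TH998.Exp.Types

/-!
# Turán numbers of expansions with crosscut number three
-/

set_option autoImplicit false

namespace Pool.Agent.TH998.Exp

open Finset Pool.Agent.TH998.Mex Filter Asymptotics

/-- The hypergraph `H` contains a copy of the hypergraph `F` (given by their sets of edges). -/
def Contains {U V : Type} (F : Set (Set U)) (H : Set (Set V)) : Prop :=
  ∃ f : U → V, Function.Injective f ∧ ∀ e ∈ F, f '' e ∈ H

/-- The Turán number `ex_3(n, F)`: the largest number of edges in a 3-graph on `n` vertices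
without a copy of `F`. -/
noncomputable def ex3 (n : ℕ) {U : Type} (F : Set (Set U)) : ℕ :=
  sSup {m | ∃ H : Set (Set (Fin n)), (∀ e ∈ H, e.ncard = 3) ∧ ¬ Contains F H ∧ H.ncard = m}

/-- The expansion `G⁺`: its vertices are those of `G` and one new vertex for each edge of `G`; its
edges are the edges of `G` together with their new vertices. -/
def expansion {W : Type} (G : SimpleGraph W) : Set (Set (W ⊕ G.edgeSet)) :=
  {e | ∃ (x y : W) (h : G.Adj x y), e = {Sum.inl x, Sum.inl y, Sum.inr ⟨s(x, y), h⟩}}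

/-- A crosscut: a set meeting each edge in exactly one vertex. -/
def IsCrosscut {U : Type} (F : Set (Set U)) (X : Set U) : Prop :=
  ∀ e ∈ F, (e ∩ X).ncard = 1

/-- The smallest size of a crosscut (for a hypergraph with finitely many vertices). -/
noncomputable def crosscutNumber {U : Type} (F : Set (Set U)) : ℕ :=
  sInf {k | ∃ X : Set U, IsCrosscut F X ∧ X.ncard = k}

theorem reduce {W : Type} [Fintype W] [DecidableEq W] (G : SimpleGraph W) (C : ℝ)
    (hC : ∀ (V : Type) [Fintype V] [DecidableEq V] (Γ : SimpleGraph V), NotIn G Γ →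
      (∀ p q, Γ.Adj p q → 2 * Fintype.card W ≤ (cn Γ p q).card) →
      (cl Γ 3 univ : ℝ) ≤ C * (Fintype.card V : ℝ) ^ 2) :
    ∃ D : ℕ, ∀ (n : ℕ) (H : Set (Set (Fin n))), (∀ e ∈ H, e.ncard = 3) →
      ¬ Contains (expansion G) H → (H.ncard : ℝ) ≤ (C + D) * (n : ℝ) ^ 2 := by
  classical
  have : Fintype G.edgeSet := Fintype.ofFinite _
  refine ⟨Fintype.card W + Fintype.card G.edgeSet + 2 * Fintype.card W, ?_⟩
  set D := Fintype.card W + Fintype.card G.edgeSet + 2 * Fintype.card W with hD
  intro n H hH3 hHF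
  set Hf : Finset (Finset (Fin n)) := univ.filter (fun e => (e : Set (Fin n)) ∈ H) with hHf
  have hmem : ∀ e, e ∈ Hf ↔ (e : Set (Fin n)) ∈ H := by
    intro e
    rw [hHf, Finset.mem_filter]
    simp
  have hcard : H.ncard = Hf.card := by
    have h1 : H = (fun e : Finset (Fin n) => (e : Set (Fin n))) '' (Hf : Set (Finset (Fin n))) := by
      ext e
      rw [Set.mem_image]
      constructor
      · intro he
        refine ⟨e.toFinset, ?_, by simp⟩
        rw [Finset.mem_coe, hmem]
        simpa using he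
      · rintro ⟨e', he', rfl⟩
        rw [Finset.mem_coe, hmem] at he'
        exact he'
    rw [h1, Set.ncard_image_of_injective _ Finset.coe_injective, Set.ncard_coe_finset]
  have hf3 : ∀ e ∈ Hf, e.card = 3 := by
    intro e he
    have := hH3 _ ((hmem e).1 he)
    rwa [Set.ncard_coe_finset] at this
  obtain ⟨H', hH', hc, hgood⟩ := clean D (n ^ 2) Hf hf3 (by
    refine (Finset.card_le_univ _).trans ?_
    rw [Fintype.card_prod, Fintype.card_fin, pow_two])
  have hf3' : ∀ e ∈ H', e.card = 3 := fun e he => hf3 e (hH' he)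
  have hnot : NotIn G (shadowG H') := by
    rintro ⟨f, hf, hadj⟩
    obtain ⟨z, hz1, hz2, hz3⟩ := expand G (H := H') (by
      intro x y hxy he
      have := hgood x y hxy he
      omega) f hadj
    apply hHF
    refine ⟨Sum.elim f z, ?_, ?_⟩
    · rintro (a | a) (b | b) hab
      · simp only [Sum.elim_inl] at hab
        rw [hf hab]
      · simp only [Sum.elim_inl, Sum.elim_inr] at hab
        exact absurd hab (hz2 a b)
      · simp only [Sum.elim_inl, Sum.elim_inr] at hab
        exact absurd hab.symm (hz2 b a)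
      · simp only [Sum.elim_inr] at hab
        rw [hz1 hab]
    · rintro e ⟨x, y, h, rfl⟩
      have h1 := (hmem _).1 (hH' (hz3 x y h))
      rw [Set.image_insert_eq, Set.image_insert_eq, Set.image_singleton]
      simpa using h1
  have hcod : ∀ p q, (shadowG H').Adj p q → 2 * Fintype.card W ≤ (cn (shadowG H') p q).card := by
    intro p q hpq
    have h1 := hgood p q hpq.1 hpq.2
    have h2 : third H' p q ⊆ cn (shadowG H') p q := by
      intro z hz
      rw [mem_cn]
      exact third_sub hf3' p q hpq.1 z hz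
    have h3 := Finset.card_le_card h2
    omega
  have h1 := hC (Fin n) (shadowG H') hnot hcod
  rw [Fintype.card_fin] at h1
  have h2 : (H'.card : ℝ) ≤ cl (shadowG H') 3 univ := by exact_mod_cast card_le_cl hf3'
  have h3 : (Hf.card : ℝ) ≤ H'.card + D * (n : ℝ) ^ 2 := by exact_mod_cast hc
  rw [hcard]
  calc (Hf.card : ℝ) ≤ H'.card + D * (n : ℝ) ^ 2 := h3
    _ ≤ C * (n : ℝ) ^ 2 + D * (n : ℝ) ^ 2 := by linarith
    _ = _ := by ring

/-- the structure of a crosscut of size three -/
theorem crosscut_cases {W : Type} [Fintype W] [DecidableEq W] (G : SimpleGraph W)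
    {X : Set (W ⊕ G.edgeSet)} (hX : IsCrosscut (expansion G) X) (hX3 : X.ncard = 3) :
    ∃ (I : Finset W) (J : Finset (Sym2 W)), I.card + J.card = 3 ∧ (∀ e ∈ J, e ∈ G.edgeSet) ∧
      (∀ x y, G.Adj x y → ¬ (x ∈ I ∧ y ∈ I)) ∧
      (∀ x y, G.Adj x y → (x ∈ I ∨ y ∈ I) → s(x, y) ∉ J) ∧
      (∀ x y, G.Adj x y → x ∉ I → y ∉ I → s(x, y) ∈ J) := by
  classical
  have : Fintype G.edgeSet := Fintype.ofFinite _
  set Xf := X.toFinset with hXf
  have hmemX : ∀ a, a ∈ Xf ↔ a ∈ X := fun a => Set.mem_toFinset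
  have hXc : Xf.card = 3 := by
    rw [hXf, ← Set.ncard_eq_toFinset_card', hX3]
  have key : ∀ x y (h : G.Adj x y), ∃ a, ({Sum.inl x, Sum.inl y, Sum.inr ⟨s(x, y), h⟩} :
      Set (W ⊕ G.edgeSet)) ∩ X = {a} := by
    intro x y h
    exact Set.ncard_eq_one.1 (hX _ ⟨x, y, h, rfl⟩)
  refine ⟨Xf.toLeft, Xf.toRight.map ⟨Subtype.val, Subtype.val_injective⟩, ?_, ?_, ?_, ?_, ?_⟩
  · rw [Finset.card_map, Finset.card_toLeft_add_card_toRight, hXc]
  · intro e he
    rw [Finset.mem_map] at he
    obtain ⟨e', _, rfl⟩ := he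
    exact e'.2
  · intro x y h hxy
    rw [Finset.mem_toLeft, Finset.mem_toLeft, hmemX, hmemX] at hxy
    obtain ⟨a, ha⟩ := key x y h
    have h1 : (Sum.inl x : W ⊕ G.edgeSet) ∈ ({a} : Set _) := by
      rw [← ha]; exact ⟨by simp, hxy.1⟩
    have h2 : (Sum.inl y : W ⊕ G.edgeSet) ∈ ({a} : Set _) := by
      rw [← ha]; exact ⟨by simp, hxy.2⟩
    rw [Set.mem_singleton_iff] at h1 h2
    have h3 := h1.trans h2.symm
    exact h.ne (Sum.inl_injective h3)
  · intro x y h hxy hJ
    rw [Finset.mem_map] at hJ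
    obtain ⟨e', he', hee⟩ := hJ
    rw [Finset.mem_toRight, hmemX] at he'
    have he2 : e' = ⟨s(x, y), h⟩ := Subtype.ext hee
    rw [he2] at he'
    rw [Finset.mem_toLeft, Finset.mem_toLeft, hmemX, hmemX] at hxy
    obtain ⟨a, ha⟩ := key x y h
    have h1 : (Sum.inr ⟨s(x, y), h⟩ : W ⊕ G.edgeSet) ∈ ({a} : Set _) := by
      rw [← ha]; exact ⟨by simp, he'⟩
    rw [Set.mem_singleton_iff] at h1
    rcases hxy with hx | hy
    · have h2 : (Sum.inl x : W ⊕ G.edgeSet) ∈ ({a} : Set _) := by
        rw [← ha]; exact ⟨by simp, hx⟩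
      rw [Set.mem_singleton_iff] at h2
      exact absurd (h2.trans h1.symm) (by simp)
    · have h2 : (Sum.inl y : W ⊕ G.edgeSet) ∈ ({a} : Set _) := by
        rw [← ha]; exact ⟨by simp, hy⟩
      rw [Set.mem_singleton_iff] at h2
      exact absurd (h2.trans h1.symm) (by simp)
  · intro x y h hx hy
    rw [Finset.mem_toLeft, hmemX] at hx hy
    obtain ⟨a, ha⟩ := key x y h
    have h1 : a ∈ ({Sum.inl x, Sum.inl y, Sum.inr ⟨s(x, y), h⟩} : Set (W ⊕ G.edgeSet)) ∩ X := by
      rw [ha]; rfl
    obtain ⟨h2, h3⟩ := h1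
    simp only [Set.mem_insert_iff, Set.mem_singleton_iff] at h2
    rcases h2 with rfl | rfl | rfl
    · exact absurd h3 hx
    · exact absurd h3 hy
    · rw [Finset.mem_map]
      exact ⟨⟨s(x, y), h⟩, by rw [Finset.mem_toRight, hmemX]; exact h3, rfl⟩

/-- graphs with at most two edges avoiding a vertex -/
theorem type1 {W : Type} [Fintype W] [DecidableEq W] (G : SimpleGraph W) (x : W)
    (hW : ∃ c, x ≠ c) (e1 e2 : Sym2 W)
    (hG : ∀ u v, G.Adj u v → u = x ∨ v = x ∨ s(u, v) = e1 ∨ s(u, v) = e2)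
    {V : Type} [Fintype V] [DecidableEq V] (Γ : SimpleGraph V) (hΓ : NotIn G Γ)
    (hD : ∀ p q, Γ.Adj p q → 2 * Fintype.card W ≤ (cn Γ p q).card) : ∀ p q, ¬ Γ.Adj p q := by
  classical
  -- the first case: all edges meet `x` or another vertex
  by_cases hA : ∃ c, x ≠ c ∧ ∀ u v, G.Adj u v → u = x ∨ v = x ∨ u = c ∨ v = c
  · obtain ⟨c, hxc, hc⟩ := hA
    exact type1a G x c hxc hc Γ hΓ hD
  · push Not at hA
    induction e1 using Sym2.ind with
    | _ u v =>
    induction e2 using Sym2.ind with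
    | _ w z =>
    have hsym : ∀ a b c d : W, s(a, b) = s(c, d) ↔ (a = c ∧ b = d) ∨ (a = d ∧ b = c) := by
      intro a b c d
      exact Sym2.eq_iff
    -- for each `c ≠ x` there is an edge avoiding both
    have hA' : ∀ c, x ≠ c → ∃ a b, G.Adj a b ∧ a ≠ x ∧ b ≠ x ∧ a ≠ c ∧ b ≠ c := by
      intro c hc
      obtain ⟨a, b, h1, h2, h3, h4, h5⟩ := hA c hc
      exact ⟨a, b, h1, h2, h3, h4, h5⟩
    -- facts about the edges
    have huvx : x ≠ u ∧ x ≠ v ∧ u ≠ v := by
      by_contra hcon
      -- then the edge `uv` avoiding `x` is not there; all edges avoiding `x` are `wz`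
      have hno : ∀ a b, G.Adj a b → a ≠ x → b ≠ x → s(a, b) = s(w, z) := by
        intro a b hab ha hb
        rcases hG a b hab with h | h | h | h
        · exact absurd h ha
        · exact absurd h hb
        · exfalso
          apply hcon
          rw [hsym] at h
          rcases h with ⟨rfl, rfl⟩ | ⟨rfl, rfl⟩
          · exact ⟨ha.symm, hb.symm, hab.ne⟩
          · exact ⟨hb.symm, ha.symm, hab.ne.symm⟩
        · exact h
      by_cases hw : x = w
      · obtain ⟨c, hc⟩ := hW
        obtain ⟨a, b, hab, ha, hb, _, _⟩ := hA' c hc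
        have h := hno a b hab ha hb
        rw [hsym, ← hw] at h
        rcases h with ⟨h1, _⟩ | ⟨_, h1⟩
        · exact ha h1
        · exact hb h1
      · obtain ⟨a, b, hab, ha, hb, ha', hb'⟩ := hA' w hw
        have h := hno a b hab ha hb
        rw [hsym] at h
        rcases h with ⟨h1, _⟩ | ⟨_, h1⟩
        · exact ha' h1
        · exact hb' h1
    obtain ⟨hxu, hxv, huv⟩ := huvx
    obtain ⟨a, b, hab, ha, hb, hau, hbu⟩ := hA' u hxu
    have h1 : s(a, b) = s(w, z) := by
      rcases hG a b hab with h | h | h | h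
      · exact absurd h ha
      · exact absurd h hb
      · rw [hsym] at h
        rcases h with ⟨h2, _⟩ | ⟨_, h2⟩
        · exact absurd h2 hau
        · exact absurd h2 hbu
      · exact h
    obtain ⟨a', b', hab', ha', hb', hav, hbv⟩ := hA' v hxv
    have h2 : s(a', b') = s(w, z) := by
      rcases hG a' b' hab' with h | h | h | h
      · exact absurd h ha'
      · exact absurd h hb'
      · rw [hsym] at h
        rcases h with ⟨_, h2⟩ | ⟨h2, _⟩
        · exact absurd h2 hbv
        · exact absurd h2 hav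
      · exact h
    have hwz : x ≠ w ∧ x ≠ z ∧ w ≠ z ∧ u ≠ w ∧ u ≠ z := by
      rw [hsym] at h1
      rcases h1 with ⟨rfl, rfl⟩ | ⟨rfl, rfl⟩
      · exact ⟨ha.symm, hb.symm, hab.ne, hau.symm, hbu.symm⟩
      · exact ⟨hb.symm, ha.symm, hab.ne.symm, hbu.symm, hau.symm⟩
    have hvwz : v ≠ w ∧ v ≠ z := by
      rw [hsym] at h2
      rcases h2 with ⟨rfl, rfl⟩ | ⟨rfl, rfl⟩
      · exact ⟨hav.symm, hbv.symm⟩
      · exact ⟨hbv.symm, hav.symm⟩
    refine type1b G x u v w z hxu hxv hwz.1 hwz.2.1 huv hwz.2.2.2.1 hwz.2.2.2.2 hvwz.1 hvwz.2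
      hwz.2.2.1 ?_ Γ hΓ hD
    intro s t hst
    rcases hG s t hst with h | h | h | h
    · exact Or.inl h
    · exact Or.inr (Or.inl h)
    · rw [hsym] at h
      tauto
    · rw [hsym] at h
      tauto

/-- the upper bound -/
theorem upper {W : Type} [Finite W] (G : SimpleGraph W)
    (hσ : crosscutNumber (expansion G) = 3) : ∃ C : ℝ, 0 < C ∧
    ∀ (n : ℕ) (H : Set (Set (Fin n))), (∀ e ∈ H, e.ncard = 3) →
      ¬ Contains (expansion G) H → (H.ncard : ℝ) ≤ C * (n : ℝ) ^ 2 := by
  classical
  have := Fintype.ofFinite W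
  suffices h : ∃ C : ℝ, 0 < C ∧ ∀ (V : Type) [Fintype V] [DecidableEq V] (Γ : SimpleGraph V),
      NotIn G Γ → (∀ p q, Γ.Adj p q → 2 * Fintype.card W ≤ (cn Γ p q).card) →
      (cl Γ 3 univ : ℝ) ≤ C * (Fintype.card V : ℝ) ^ 2 by
    obtain ⟨C, hC, h⟩ := h
    obtain ⟨D, hD⟩ := reduce G C h
    exact ⟨C + D, by positivity, hD⟩
  have hne : {k | ∃ X : Set (W ⊕ G.edgeSet), IsCrosscut (expansion G) X ∧ X.ncard = k}.Nonempty := by
    apply Nat.nonempty_of_pos_sInf
    show 0 < crosscutNumber (expansion G)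
    omega
  obtain ⟨X, hX, hX3⟩ := Nat.sInf_mem hne
  change X.ncard = crosscutNumber (expansion G) at hX3
  rw [hσ] at hX3
  obtain ⟨I, J, hIJ, hJG, hI1, hI2, hI3⟩ := crosscut_cases G hX hX3
  have hempty : ∀ (x : W) (_ : ∃ c, x ≠ c) (e1 e2 : Sym2 W)
      (_ : ∀ u v, G.Adj u v → u = x ∨ v = x ∨ s(u, v) = e1 ∨ s(u, v) = e2),
      ∃ C : ℝ, 0 < C ∧ ∀ (V : Type) [Fintype V] [DecidableEq V] (Γ : SimpleGraph V),
      NotIn G Γ → (∀ p q, Γ.Adj p q → 2 * Fintype.card W ≤ (cn Γ p q).card) →
      (cl Γ 3 univ : ℝ) ≤ C * (Fintype.card V : ℝ) ^ 2 := by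
    intro x hx e1 e2 hG
    refine ⟨1, one_pos, ?_⟩
    intro V _ _ Γ hΓ hD
    rw [cl3_of_empty Γ (type1 G x hx e1 e2 hG Γ hΓ hD)]
    simp only [Nat.cast_zero]
    positivity
  have hI : I.card = 3 ∨ I.card = 2 ∨ I.card = 1 ∨ I.card = 0 := by omega
  rcases hI with hI | hI | hI | hI
  · have hJ : J = ∅ := by
      rw [← Finset.card_eq_zero]
      omega
    obtain ⟨C, hC, h⟩ := type3 G I hI (by
      intro x y hxy
      by_cases hx : x ∈ I
      · exact Or.inl ⟨hx, fun hy => hI1 x y hxy ⟨hx, hy⟩⟩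
      · by_cases hy : y ∈ I
        · exact Or.inr ⟨hx, hy⟩
        · have := hI3 x y hxy hx hy
          rw [hJ] at this
          simp at this)
    exact ⟨C, hC, fun V _ _ Γ hΓ _ => h V Γ hΓ⟩
  · obtain ⟨a, b, hab, rfl⟩ := Finset.card_eq_two.1 hI
    obtain ⟨e, he⟩ := Finset.card_eq_one.1 (by omega : J.card = 1)
    subst he
    induction e using Sym2.ind with
    | _ u v =>
    have huvG : G.Adj u v := hJG _ (Finset.mem_singleton_self _)
    have hu : u ∉ ({a, b} : Finset W) := fun h => hI2 u v huvG (Or.inl h) (Finset.mem_singleton_self _)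
    have hv : v ∉ ({a, b} : Finset W) := fun h => hI2 u v huvG (Or.inr h) (Finset.mem_singleton_self _)
    simp only [Finset.mem_insert, Finset.mem_singleton, not_or] at hu hv
    refine ⟨1 + (2 * Fintype.card W : ℕ) ^ 2, by positivity, ?_⟩
    intro V _ _ Γ hΓ _
    have h := type2 G a b u v hab huvG.ne (Ne.symm hu.1) (Ne.symm hv.1) (Ne.symm hu.2)
      (Ne.symm hv.2) (by
      intro x y hxy
      have hI3' := hI3 x y hxy
      have hI1' := hI1 x y hxy
      simp only [Finset.mem_insert, Finset.mem_singleton] at hI3' hI1'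
      by_cases hx : x = a ∨ x = b
      · by_cases hy : y = a ∨ y = b
        · exact absurd ⟨hx, hy⟩ hI1'
        · push Not at hy
          exact Or.inr (Or.inr (Or.inl ⟨hx, hy.1, hy.2⟩))
      · by_cases hy : y = a ∨ y = b
        · push Not at hx
          exact Or.inr (Or.inr (Or.inr ⟨hy, hx.1, hx.2⟩))
        · have h := hI3' hx hy
          rw [Sym2.eq_iff] at h
          rcases h with h | h
          · exact Or.inl h
          · exact Or.inr (Or.inl h)) Γ hΓ
    exact_mod_cast h
  · obtain ⟨x, rfl⟩ := Finset.card_eq_one.1 hI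
    obtain ⟨e1, e2, _, rfl⟩ := Finset.card_eq_two.1 (by omega : J.card = 2)
    refine hempty x ?_ e1 e2 ?_
    · induction e1 using Sym2.ind with
      | _ u v =>
      have huvG : G.Adj u v := hJG s(u, v) (by simp)
      refine ⟨u, fun h => hI2 u v huvG (Or.inl (by simp [h])) (by simp)⟩
    · intro u v huv
      by_cases hu : u = x
      · exact Or.inl hu
      · by_cases hv : v = x
        · exact Or.inr (Or.inl hv)
        · have := hI3 u v huv (by simpa using hu) (by simpa using hv)
          simp only [Finset.mem_insert, Finset.mem_singleton] at this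
          exact Or.inr (Or.inr this)
  · have hI0 : I = ∅ := Finset.card_eq_zero.1 hI
    subst hI0
    obtain ⟨e1, e2, e3, _, _, _, rfl⟩ := Finset.card_eq_three.1 (by omega : J.card = 3)
    induction e3 using Sym2.ind with
    | _ x y =>
    have hxyG : G.Adj x y := hJG s(x, y) (by simp)
    refine hempty x ⟨y, hxyG.ne⟩ e1 e2 ?_
    intro u v huv
    have := hI3 u v huv (by simp) (by simp)
    simp only [Finset.mem_insert, Finset.mem_singleton] at this
    rcases this with h | h | h
    · exact Or.inr (Or.inr (Or.inl h))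
    · exact Or.inr (Or.inr (Or.inr h))
    · rw [Sym2.eq_iff] at h
      rcases h with ⟨h, _⟩ | ⟨_, h⟩
      · exact Or.inl h
      · exact Or.inr (Or.inl h)

theorem bdd (n : ℕ) {U : Type} (F : Set (Set U)) :
    BddAbove {m | ∃ H : Set (Set (Fin n)), (∀ e ∈ H, e.ncard = 3) ∧ ¬ Contains F H ∧
      H.ncard = m} := by
  refine ⟨(Set.univ : Set (Set (Fin n))).ncard, ?_⟩
  rintro m ⟨H, _, _, rfl⟩
  exact Set.ncard_le_ncard (Set.subset_univ _) (Set.toFinite _)

/-- the lower bound -/
theorem lower {W : Type} [Finite W] (G : SimpleGraph W)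
    (hσ : crosscutNumber (expansion G) = 3) (n : ℕ) (hn : 3 ≤ n) :
    (n - 2).choose 2 ≤ ex3 n (expansion G) := by
  classical
  set a : Fin n := ⟨0, by omega⟩ with ha
  set b : Fin n := ⟨1, by omega⟩ with hb
  have hab : a ≠ b := by
    intro h
    have := congrArg Fin.val h
    simp [ha, hb] at this
  set H : Set (Set (Fin n)) := {e | e.ncard = 3 ∧ (e ∩ {a, b}).ncard = 1} with hH
  have hfree : ¬ Contains (expansion G) H := by
    rintro ⟨f, hf, he⟩
    have hcross : IsCrosscut (expansion G) (f ⁻¹' {a, b}) := by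
      intro e hee
      have h1 := (he e hee).2
      rw [← Set.image_inter_preimage, Set.ncard_image_of_injective _ hf] at h1
      exact h1
    have hsz : (f ⁻¹' {a, b}).ncard ≤ 2 := by
      have h1 : (f '' (f ⁻¹' {a, b})).ncard ≤ ({a, b} : Set (Fin n)).ncard :=
        Set.ncard_le_ncard (Set.image_preimage_subset _ _) (Set.toFinite _)
      rw [Set.ncard_image_of_injective _ hf] at h1
      exact h1.trans (Set.ncard_pair hab).le
    have h2 : crosscutNumber (expansion G) ≤ (f ⁻¹' {a, b}).ncard :=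
      Nat.sInf_le ⟨_, hcross, rfl⟩
    omega
  have hle : (n - 2).choose 2 ≤ H.ncard := by
    set P : Finset (Finset (Fin n)) := ((univ : Finset (Fin n)) \ {a, b}).powersetCard 2 with hP
    have hPc : P.card = (n - 2).choose 2 := by
      rw [hP, Finset.card_powersetCard, Finset.card_sdiff_of_subset (Finset.subset_univ _),
        Finset.card_pair hab, Finset.card_univ, Fintype.card_fin]
    rw [← hPc, ← Set.ncard_coe_finset]
    have hPmem : ∀ s ∈ P, a ∉ s ∧ b ∉ s ∧ s.card = 2 := by
      intro s hs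
      rw [hP, Finset.mem_powersetCard] at hs
      refine ⟨fun h => ?_, fun h => ?_, hs.2⟩
      · have := hs.1 h
        simp at this
      · have := hs.1 h
        simp at this
    refine Set.ncard_le_ncard_of_injOn (fun s : Finset (Fin n) => ((insert a s : Finset (Fin n)) :
      Set (Fin n))) ?_ ?_ (Set.toFinite _)
    · intro s hs
      obtain ⟨h1, h2, h3⟩ := hPmem s hs
      refine ⟨?_, ?_⟩
      · rw [Set.ncard_coe_finset, Finset.card_insert_of_notMem h1, h3]
      · have : ((insert a s : Finset (Fin n)) : Set (Fin n)) ∩ {a, b} = {a} := by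
          ext w
          simp only [Finset.coe_insert, Set.mem_inter_iff, Set.mem_insert_iff, Finset.mem_coe,
            Set.mem_singleton_iff]
          constructor
          · rintro ⟨h4 | h4, h5 | h5⟩
            · exact h5
            · exact h4
            · exact h5
            · rw [h5] at h4
              exact absurd h4 h2
          · intro h4
            exact ⟨Or.inl h4, Or.inl h4⟩
        rw [this, Set.ncard_singleton]
    · intro s hs s' hs' hss
      have h1 := (hPmem s hs).1
      have h1' := (hPmem s' hs').1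
      have h2 : (insert a s : Finset (Fin n)) = insert a s' := Finset.coe_injective hss
      rw [← Finset.erase_insert h1, h2, Finset.erase_insert h1']
  refine hle.trans ?_
  exact le_csSup (bdd n _) ⟨H, fun e he => he.1, hfree, rfl⟩

/-- the order of magnitude -/
theorem theta {W : Type} [Finite W] (G : SimpleGraph W)
    (hσ : crosscutNumber (expansion G) = 3) :
    (fun n : ℕ => (ex3 n (expansion G) : ℝ)) =Θ[atTop] (fun n : ℕ => (n : ℝ) ^ 2) := by
  constructor
  · obtain ⟨C, hC, h⟩ := upper G hσ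
    refine IsBigO.of_bound C (Eventually.of_forall fun n => ?_)
    rw [Real.norm_natCast, Real.norm_of_nonneg (by positivity)]
    have hle : ex3 n (expansion G) ≤ ⌊C * (n : ℝ) ^ 2⌋₊ := by
      apply csSup_le'
      rintro m ⟨H, hH3, hHF, rfl⟩
      exact Nat.le_floor (h n H hH3 hHF)
    exact (Nat.cast_le.2 hle).trans (Nat.floor_le (by positivity))
  · refine IsBigO.of_bound 16 (eventually_atTop.2 ⟨4, fun n hn => ?_⟩)
    rw [Real.norm_of_nonneg (by positivity), Real.norm_natCast]
    have h1 := lower G hσ n (by omega)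
    have h2 : n ^ 2 ≤ 16 * (n - 2).choose 2 := by
      obtain ⟨k, rfl⟩ : ∃ k, n = k + 4 := ⟨n - 4, by omega⟩
      have e : k + 4 - 2 = k + 2 := by omega
      rw [e, Nat.choose_two_right]
      have e2 : k + 2 - 1 = k + 1 := by omega
      rw [e2]
      have h3 : (k + 2) * (k + 1) = 2 * ((k + 2) * (k + 1) / 2) := by
        have : 2 ∣ (k + 2) * (k + 1) := by
          have := Nat.even_mul_succ_self (k + 1)
          rw [mul_comm]
          exact this.two_dvd
        omega
      nlinarith
    have h3 : n ^ 2 ≤ 16 * ex3 n (expansion G) := h2.trans (Nat.mul_le_mul_left _ h1)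
    exact_mod_cast h3

end Pool.Agent.TH998.Exp
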