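import Pool.Agent.TH998.Exp.Main

/-!
# Expansions of higher uniformity: cleaning and embedding
-/

set_option autoImplicit false

namespace Pool.Agent.TH998.Exp

open Finset Pool.Agent.TH998.Mex

variable {V : Type} [Fintype V] [DecidableEq V]

/-- the extensions of a set to an edge -/
def exts (H : Finset (Finset V)) (s : Finset V) : Finset V :=
  univ.filter fun z => z ∉ s ∧ insert z s ∈ H

theorem mem_exts {H : Finset (Finset V)} {s : Finset V} {z : V} :
    z ∈ exts H s ↔ z ∉ s ∧ insert z s ∈ H := by
  unfold exts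
  rw [Finset.mem_filter]
  simp

/-- the shadow -/
def sh (q : ℕ) (H : Finset (Finset V)) : Finset (Finset V) :=
  (univ.powersetCard q).filter fun s => ∃ e ∈ H, s ⊆ e

theorem mem_sh {q : ℕ} {H : Finset (Finset V)} {s : Finset V} :
    s ∈ sh q H ↔ s.card = q ∧ ∃ e ∈ H, s ⊆ e := by
  unfold sh
  rw [Finset.mem_filter, Finset.mem_powersetCard]
  simp

theorem cleanR (D q : ℕ) : ∀ (k : ℕ) (H : Finset (Finset V)), (∀ e ∈ H, e.card = q + 1) →
    (sh q H).card ≤ k → ∃ H' ⊆ H, H.card ≤ H'.card + D * k ∧
      ∀ s, s.card = q → (∃ e ∈ H', s ⊆ e) → D ≤ (exts H' s).card := by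
  intro k
  induction k with
  | zero =>
    intro H hH hk
    refine ⟨H, subset_rfl, Nat.le_add_right _ _, ?_⟩
    intro s hs he
    have := Finset.card_pos.2 ⟨_, mem_sh.2 ⟨hs, he⟩⟩
    omega
  | succ k ih =>
    intro H hH hk
    by_cases hgood : ∀ s, s.card = q → (∃ e ∈ H, s ⊆ e) → D ≤ (exts H s).card
    · exact ⟨H, subset_rfl, Nat.le_add_right _ _, hgood⟩
    · push Not at hgood
      obtain ⟨s, hs, he, hlt⟩ := hgood
      set H1 := H.filter (fun e => ¬ s ⊆ e) with hH1
      have hsub : H1 ⊆ H := Finset.filter_subset _ _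
      have hp : (sh q H1).card ≤ k := by
        have h1 : sh q H1 ⊆ (sh q H).erase s := by
          intro p hp
          rw [mem_sh] at hp
          obtain ⟨hpq, e, heH, h1⟩ := hp
          rw [Finset.mem_erase, mem_sh]
          refine ⟨?_, hpq, e, hsub heH, h1⟩
          rintro rfl
          exact (Finset.mem_filter.1 heH).2 h1
        have h2 : s ∈ sh q H := mem_sh.2 ⟨hs, he⟩
        have h3 := Finset.card_le_card h1
        rw [Finset.card_erase_of_mem h2] at h3
        omega
      have hcard : H.card ≤ H1.card + D := by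
        have h1 : H.filter (fun e => s ⊆ e) ⊆ (exts H s).image (fun z => insert z s) := by
          intro e he
          rw [Finset.mem_filter] at he
          have h2 : (e \ s).card = 1 := by
            rw [Finset.card_sdiff_of_subset he.2, hH e he.1, hs]
            omega
          obtain ⟨z, hz⟩ := Finset.card_eq_one.1 h2
          have hzs : z ∉ s := by
            have : z ∈ e \ s := by rw [hz]; exact Finset.mem_singleton_self _
            exact (Finset.mem_sdiff.1 this).2
          have h3 : insert z s = e := by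
            have h4 := Finset.union_sdiff_of_subset he.2
            rw [hz] at h4
            rw [← h4, Finset.union_comm, ← Finset.insert_eq]
          rw [Finset.mem_image]
          refine ⟨z, ?_, h3⟩
          rw [mem_exts, h3]
          exact ⟨hzs, he.1⟩
        have h2 := (Finset.card_le_card h1).trans Finset.card_image_le
        have h3 : (H.filter (fun e => s ⊆ e)).card + H1.card = H.card := by
          rw [hH1]
          convert Finset.card_filter_add_card_filter_not (s := H) (fun e => s ⊆ e)
        omega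
      obtain ⟨H', hH', hc, hg⟩ := ih H1 (fun e he => hH e (hsub he)) hp
      refine ⟨H', hH'.trans hsub, ?_, hg⟩
      calc H.card ≤ H1.card + D := hcard
        _ ≤ (H'.card + D * k) + D := Nat.add_le_add_right hc _
        _ = _ := by ring

/-- moving an edge away from a small set -/
theorem avoid {D q : ℕ} {H : Finset (Finset V)} (hH : ∀ e ∈ H, e.card = q + 1)
    (hg : ∀ s, s.card = q → (∃ e ∈ H, s ⊆ e) → D ≤ (exts H s).card) (U P : Finset V)
    (hU : U.card < D) : ∀ (k : ℕ) (e0 : Finset V), e0 ∈ H → P ⊆ e0 → ((e0 \ P) ∩ U).card ≤ k →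
      ∃ e ∈ H, P ⊆ e ∧ Disjoint (e \ P) U := by
  intro k
  induction k with
  | zero =>
    intro e0 he0 hP hk
    refine ⟨e0, he0, hP, ?_⟩
    rw [Finset.disjoint_iff_inter_eq_empty, ← Finset.card_eq_zero]
    omega
  | succ k ih =>
    intro e0 he0 hP hk
    rcases ((e0 \ P) ∩ U).eq_empty_or_nonempty with h0 | ⟨x, hx⟩
    · exact ⟨e0, he0, hP, Finset.disjoint_iff_inter_eq_empty.2 h0⟩
    · have hx' := hx
      rw [Finset.mem_inter, Finset.mem_sdiff] at hx
      have hs : (e0.erase x).card = q := by
        rw [Finset.card_erase_of_mem hx.1.1, hH e0 he0]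
        rfl
      have h1 := hg _ hs ⟨e0, he0, Finset.erase_subset _ _⟩
      obtain ⟨z, hz, hzU⟩ := Finset.exists_mem_notMem_of_card_lt_card (lt_of_lt_of_le hU h1)
      rw [mem_exts] at hz
      refine ih (insert z (e0.erase x)) hz.2 ?_ ?_
      · intro p hp
        rw [Finset.mem_insert, Finset.mem_erase]
        right
        refine ⟨?_, hP hp⟩
        rintro rfl
        exact hx.1.2 hp
      · have h2 : (insert z (e0.erase x) \ P) ∩ U ⊆ ((e0 \ P) ∩ U).erase x := by
          intro w hw
          rw [Finset.mem_inter, Finset.mem_sdiff, Finset.mem_insert, Finset.mem_erase] at hw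
          rw [Finset.mem_erase, Finset.mem_inter, Finset.mem_sdiff]
          obtain ⟨⟨hw1, hw2⟩, hw3⟩ := hw
          rcases hw1 with rfl | ⟨hw1, hw4⟩
          · exact absurd hw3 hzU
          · exact ⟨hw1, ⟨hw4, hw2⟩, hw3⟩
        have h3 := Finset.card_le_card h2
        rw [Finset.card_erase_of_mem hx'] at h3
        omega

theorem card_le_clR {q : ℕ} {H : Finset (Finset V)} (hH : ∀ e ∈ H, e.card = q + 1) :
    H.card ≤ cl (shadowG H) (q + 1) univ := by
  unfold cl
  apply Finset.card_le_card
  intro e he
  rw [mem_cls]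
  refine ⟨Finset.subset_univ _, hH e he, ?_⟩
  intro x hx y hy hxy
  exact ⟨hxy, e, he, hx, hy⟩

/-- edges of the shadow graph have many common neighbours -/
theorem many_common {D q : ℕ} (hq : 2 ≤ q) {H : Finset (Finset V)}
    (hH : ∀ e ∈ H, e.card = q + 1)
    (hg : ∀ s, s.card = q → (∃ e ∈ H, s ⊆ e) → D ≤ (exts H s).card) (x y : V)
    (hxy : (shadowG H).Adj x y) : D ≤ (cn (shadowG H) x y).card := by
  obtain ⟨hne, e0, he0, hx, hy⟩ := hxy
  have h1 : ({x, y} : Finset V).card < e0.card := by
    rw [Finset.card_pair hne, hH e0 he0]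
    omega
  obtain ⟨w, hw, hwn⟩ := Finset.exists_mem_notMem_of_card_lt_card h1
  rw [Finset.mem_insert, Finset.mem_singleton, not_or] at hwn
  have hs : (e0.erase w).card = q := by
    rw [Finset.card_erase_of_mem hw, hH e0 he0]
    rfl
  refine (hg _ hs ⟨e0, he0, Finset.erase_subset _ _⟩).trans (Finset.card_le_card ?_)
  intro z hz
  rw [mem_exts] at hz
  have hxs : x ∈ e0.erase w := Finset.mem_erase.2 ⟨Ne.symm hwn.1, hx⟩
  have hys : y ∈ e0.erase w := Finset.mem_erase.2 ⟨Ne.symm hwn.2, hy⟩
  rw [mem_cn]
  refine ⟨⟨?_, _, hz.2, Finset.mem_insert_of_mem hxs, Finset.mem_insert_self _ _⟩,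
    ⟨?_, _, hz.2, Finset.mem_insert_of_mem hys, Finset.mem_insert_self _ _⟩⟩
  · rintro rfl
    exact hz.1 hxs
  · rintro rfl
    exact hz.1 hys

/-- a copy of `G` in the shadow graph extends to a copy of the expansion -/
theorem expandR {q D : ℕ} (hq : 2 ≤ q) {W : Type} [Fintype W] (G : SimpleGraph W)
    [Fintype G.edgeSet] {H : Finset (Finset V)} (hH : ∀ e ∈ H, e.card = q + 1)
    (hg : ∀ s, s.card = q → (∃ e ∈ H, s ⊆ e) → D ≤ (exts H s).card)
    (hD : Fintype.card W + Fintype.card G.edgeSet * (q - 1) < D)
    (f : W → V) (hf : Function.Injective f)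
    (hadj : ∀ x y, G.Adj x y → (shadowG H).Adj (f x) (f y)) :
    ∃ z : G.edgeSet × Fin (q - 1) → V, Function.Injective z ∧ (∀ w e, f w ≠ z e) ∧
      ∀ (x y : W) (h : G.Adj x y), ({f x, f y} ∪ univ.image (fun i => z (⟨s(x, y), h⟩, i)) :
        Finset V) ∈ H := by
  classical
  have hsel : ∀ e : G.edgeSet, ∃ p : W × W, s(p.1, p.2) = (e : Sym2 W) := by
    intro e
    induction e.1 using Sym2.ind with
    | _ x y => exact ⟨(x, y), rfl⟩
  choose p hp using hsel
  have hpadj : ∀ e, G.Adj (p e).1 (p e).2 := by
    intro e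
    have := e.2
    rw [← hp e] at this
    exact this
  let P : G.edgeSet → Finset V := fun e => {f (p e).1, f (p e).2}
  have hPc : ∀ e, (P e).card = 2 := fun e =>
    Finset.card_pair (fun h => (hpadj e).ne (hf h))
  have key : ∀ S : Finset G.edgeSet, ∃ Z : G.edgeSet → Finset V,
      (∀ e ∈ S, (Z e).card = q - 1 ∧ P e ∪ Z e ∈ H ∧ Disjoint (Z e) (univ.image f)) ∧
      ∀ e ∈ S, ∀ e' ∈ S, e ≠ e' → Disjoint (Z e) (Z e') := by
    intro S
    induction S using Finset.induction_on with
    | empty => exact ⟨fun _ => ∅, by simp, by simp⟩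
    | insert a S haS ih =>
      obtain ⟨Z, hZ1, hZ2⟩ := ih
      have hU : (univ.image f ∪ S.biUnion Z).card < D := by
        refine lt_of_le_of_lt ?_ hD
        refine (Finset.card_union_le _ _).trans ?_
        apply Nat.add_le_add
        · exact Finset.card_image_le.trans (by simp)
        · refine Finset.card_biUnion_le.trans ?_
          calc ∑ e ∈ S, (Z e).card = ∑ _e ∈ S, (q - 1) :=
                Finset.sum_congr rfl fun e he => (hZ1 e he).1
            _ = S.card * (q - 1) := by rw [Finset.sum_const, smul_eq_mul]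
            _ ≤ _ := Nat.mul_le_mul_right _ (Finset.card_le_univ _)
      obtain ⟨hne, e0, he0, h1, h2⟩ := hadj _ _ (hpadj a)
      have hPe0 : P a ⊆ e0 := by
        intro w hw
        rw [Finset.mem_insert, Finset.mem_singleton] at hw
        rcases hw with rfl | rfl
        · exact h1
        · exact h2
      obtain ⟨e, he, hPe, hdis⟩ := avoid hH hg (univ.image f ∪ S.biUnion Z) (P a) hU _ e0 he0
        hPe0 le_rfl
      rw [Finset.disjoint_union_right] at hdis
      have hZa : (Function.update Z a (e \ P a)) a = e \ P a := Function.update_self _ _ _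
      have hZo : ∀ b ∈ S, (Function.update Z a (e \ P a)) b = Z b := by
        intro b hb
        apply Function.update_of_ne
        rintro rfl
        exact haS hb
      refine ⟨Function.update Z a (e \ P a), ?_, ?_⟩
      · intro b hb
        rcases Finset.mem_insert.1 hb with rfl | hb
        · rw [hZa]
          refine ⟨?_, ?_, hdis.1⟩
          · rw [Finset.card_sdiff_of_subset hPe, hH e he, hPc]
            omega
          · rw [Finset.union_sdiff_of_subset hPe]
            exact he
        · rw [hZo b hb]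
          exact hZ1 b hb
      · intro b hb b' hb' hbb
        rcases Finset.mem_insert.1 hb with hb1 | hb1
        · rcases Finset.mem_insert.1 hb' with hb2 | hb2
          · exact absurd (hb1.trans hb2.symm) hbb
          · rw [hb1, hZa, hZo b' hb2]
            exact hdis.2.mono_right (Finset.subset_biUnion_of_mem Z hb2)
        · rcases Finset.mem_insert.1 hb' with hb2 | hb2
          · rw [hb2, hZa, hZo b hb1]
            exact (hdis.2.mono_right (Finset.subset_biUnion_of_mem Z hb1)).symm
          · rw [hZo b hb1, hZo b' hb2]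
            exact hZ2 b hb1 b' hb2 hbb
  obtain ⟨Z, hZ1, hZ2⟩ := key univ
  let β : ∀ e : G.edgeSet, Fin (q - 1) ≃ Z e := fun e =>
    ((Z e).equivFinOfCardEq (hZ1 e (Finset.mem_univ _)).1).symm
  have hmem : ∀ e i, ((β e i : V)) ∈ Z e := fun e i => (β e i).2
  refine ⟨fun t => (β t.1 t.2 : V), ?_, ?_, ?_⟩
  · rintro ⟨e, i⟩ ⟨e', i'⟩ h
    simp only at h
    by_cases hee : e = e'
    · subst hee
      rw [(β e).injective (Subtype.ext h)]
    · exfalso
      have h1 := hZ2 e (Finset.mem_univ _) e' (Finset.mem_univ _) hee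
      exact Finset.disjoint_left.1 h1 (hmem e i) (h ▸ hmem e' i')
  · rintro w ⟨e, i⟩ h
    have h1 := (hZ1 e (Finset.mem_univ _)).2.2
    have h2 : f w = (β e i : V) := h
    refine Finset.disjoint_left.1 h1 (hmem e i) ?_
    rw [← h2]
    exact Finset.mem_image_of_mem f (Finset.mem_univ w)
  · intro x y h
    set e : G.edgeSet := ⟨s(x, y), h⟩ with he
    have h1 : univ.image (fun i => (β e i : V)) = Z e := by
      ext w
      rw [Finset.mem_image]
      constructor
      · rintro ⟨i, _, rfl⟩
        exact hmem e i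
      · intro hw
        refine ⟨(β e).symm ⟨w, hw⟩, Finset.mem_univ _, ?_⟩
        rw [Equiv.apply_symm_apply]
    have h2 : ({f x, f y} : Finset V) = P e := by
      have h3 := hp e
      rw [he] at h3
      simp only at h3
      rw [Sym2.eq_iff] at h3
      show ({f x, f y} : Finset V) = {f (p e).1, f (p e).2}
      rcases h3 with ⟨h3, h4⟩ | ⟨h3, h4⟩
      · rw [h3, h4]
      · rw [h3, h4, Finset.pair_comm]
    rw [h1, h2]
    exact (hZ1 e (Finset.mem_univ _)).2.1

end Pool.Agent.TH998.Exp
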