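import Pool.Agent.TH998.Exp.RMain

/-!
# A recursively defined class of hypergraphs with Turán numbers `O (n ^ (r - 1))`
-/

set_option autoImplicit false

namespace Pool.Agent.TH998.Exp

open Finset Pool.Agent.TH998.Mex Filter Asymptotics

/-- The tight extension of `F` at `e` and `x`: a new vertex `none` is added, and one edge, made of
`none` and the vertices of `e` other than `x`. -/
def tightExt {U : Type} (F : Set (Set U)) (e : Set U) (x : U) : Set (Set (Option U)) :=
  insert (insert none (some '' (e \ {x}))) ((fun e' => some '' e') '' F)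

/-- The cone over `F`: one new vertex `none` is added to all edges. -/
def cone {U : Type} (F : Set (Set U)) : Set (Set (Option U)) :=
  (fun e => insert none (some '' e)) '' F

/-- The disjoint union of two hypergraphs. -/
def disjUnion {U V : Type} (F : Set (Set U)) (F' : Set (Set V)) : Set (Set (U ⊕ V)) :=
  (fun e => Sum.inl '' e) '' F ∪ (fun e => Sum.inr '' e) '' F'

/-- The smallest class of `r`-uniform hypergraphs (for all `r ≥ 1` together) which contains the
finite `1`-uniform ones and, for `r ≥ 3`, the `r`-uniform expansions of the graphs stacked over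
`K_{a,b}`, `1 ≤ a ≤ r (r - 1) / 2`, and is closed under taking subhypergraphs, tight extensions,
disjoint unions and, from `r` to `r + 1`, cones. -/
inductive Fam : ℕ → (U : Type) → Set (Set U) → Prop
  | one (U : Type) [Finite U] (F : Set (Set U)) (h : ∀ e ∈ F, e.ncard = 1) : Fam 1 U F
  | bip (r a b : ℕ) (hr : 3 ≤ r) (ha : 1 ≤ a) (har : a ≤ r.choose 2) (W : Type) [Finite W]
      (G : SimpleGraph W) (hG : IsStacked a b G) :
      Fam r (W ⊕ (G.edgeSet × Fin (r - 2))) (expansionR r G)
  | sub (r : ℕ) (U U' : Type) (F : Set (Set U)) (F' : Set (Set U')) (hF : Contains F F')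
      (h : Fam r U' F') : Fam r U F
  | ext (r : ℕ) (U : Type) (F : Set (Set U)) (e : Set U) (x : U) (he : e ∈ F) (hx : x ∈ e)
      (h : Fam r U F) : Fam r (Option U) (tightExt F e x)
  | union (r : ℕ) (U V : Type) (F : Set (Set U)) (F' : Set (Set V)) (h : Fam r U F)
      (h' : Fam r V F') : Fam r (U ⊕ V) (disjUnion F F')
  | cone (r : ℕ) (U : Type) (F : Set (Set U)) (h : Fam r U F) : Fam (r + 1) (Option U) (cone F)

/-- containment up to isolated vertices -/
def Cont {U V : Type} (F : Set (Set U)) (H : Set (Set V)) : Prop :=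
  ∃ f : U → V, Set.InjOn f (⋃₀ F) ∧ ∀ e ∈ F, f '' e ∈ H

theorem Contains.cont {U V : Type} {F : Set (Set U)} {H : Set (Set V)} (h : Contains F H) :
    Cont F H := by
  obtain ⟨f, hf, h⟩ := h
  exact ⟨f, hf.injOn, h⟩

theorem Contains.trans_cont {U V X : Type} {F : Set (Set U)} {H : Set (Set V)} {K : Set (Set X)}
    (h1 : Contains F H) (h2 : Cont H K) : Cont F K := by
  obtain ⟨f, hf, hf'⟩ := h1
  obtain ⟨g, hg, hg'⟩ := h2
  refine ⟨g ∘ f, ?_, fun e he => ?_⟩
  · intro x hx y hy hxy
    obtain ⟨e, he, hxe⟩ := hx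
    obtain ⟨e', he', hye⟩ := hy
    exact hf (hg ⟨_, hf' e he, Set.mem_image_of_mem f hxe⟩
      ⟨_, hf' e' he', Set.mem_image_of_mem f hye⟩ hxy)
  · rw [Set.image_comp]
    exact hg' _ (hf' e he)

theorem Cont.contains {U : Type} [Finite U] {n : ℕ} {F : Set (Set U)} {H : Set (Set (Fin n))}
    (h : Cont F H) (hn : Nat.card U ≤ n) : Contains F H := by
  classical
  have := Fintype.ofFinite U
  obtain ⟨f, hf, h⟩ := h
  set S : Finset U := univ.filter (fun x => x ∈ ⋃₀ F) with hS
  have hfS : Set.InjOn f (S : Set U) := by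
    intro x hx y hy hxy
    rw [Finset.mem_coe, hS, Finset.mem_filter] at hx hy
    exact hf hx.2 hy.2 hxy
  have hc1 : (S.image f).card ≤ Fintype.card U :=
    Finset.card_image_le.trans (Finset.card_le_univ _)
  obtain ⟨t, ht1, _, ht2⟩ := Finset.exists_subsuperset_card_eq (Finset.subset_univ (S.image f)) hc1
    (by rw [Finset.card_univ, Fintype.card_fin, ← Nat.card_eq_fintype_card]; exact hn)
  obtain ⟨g, hg⟩ := Finset.exists_equiv_extend_of_card_eq ht2.symm ht1 hfS
  refine ⟨fun x => (g x : Fin n), fun x y hxy => g.injective (Subtype.ext hxy), ?_⟩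
  intro e he
  have h1 : (fun x => (g x : Fin n)) '' e = f '' e := by
    apply Set.image_congr
    intro x hx
    apply hg
    rw [hS, Finset.mem_filter]
    exact ⟨Finset.mem_univ _, e, he, hx⟩
  rw [h1]
  exact h e he

open Classical in
/-- the edges as finite sets -/
noncomputable def toF {n : ℕ} (H : Set (Set (Fin n))) : Finset (Finset (Fin n)) :=
  univ.filter (fun e => (e : Set (Fin n)) ∈ H)

theorem mem_toF {n : ℕ} {H : Set (Set (Fin n))} {e : Finset (Fin n)} :
    e ∈ toF H ↔ (e : Set (Fin n)) ∈ H := by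
  classical
  unfold toF
  rw [Finset.mem_filter]
  simp

theorem card_toF {n : ℕ} (H : Set (Set (Fin n))) : H.ncard = (toF H).card := by
  classical
  have h1 : H = (fun e : Finset (Fin n) => (e : Set (Fin n))) '' (toF H : Set (Finset (Fin n))) := by
    ext e
    rw [Set.mem_image]
    constructor
    · intro he
      refine ⟨e.toFinset, ?_, by simp⟩
      rw [Finset.mem_coe, mem_toF]
      simpa using he
    · rintro ⟨e', he', rfl⟩
      rw [Finset.mem_coe, mem_toF] at he'
      exact he'
  conv_lhs => rw [h1]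
  rw [Set.ncard_image_of_injective _ Finset.coe_injective, Set.ncard_coe_finset]

/-- the hypergraph of a family of finite sets -/
def ofF {n : ℕ} (K : Finset (Finset (Fin n))) : Set (Set (Fin n)) :=
  (fun e : Finset (Fin n) => (e : Set (Fin n))) '' (K : Set (Finset (Fin n)))

theorem card_ofF {n : ℕ} (K : Finset (Finset (Fin n))) : (ofF K).ncard = K.card := by
  unfold ofF
  rw [Set.ncard_image_of_injective _ Finset.coe_injective, Set.ncard_coe_finset]

/-- the bound -/
def Bd (r : ℕ) {U : Type} (F : Set (Set U)) : Prop :=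
  ∃ C : ℕ, ∀ (n : ℕ) (H : Set (Set (Fin n))), (∀ e ∈ H, e.ncard = r) → ¬ Cont F H →
    H.ncard ≤ C * n ^ (r - 1)

theorem bd_one {U : Type} [Finite U] {F : Set (Set U)} (h : ∀ e ∈ F, e.ncard = 1) : Bd 1 F := by
  classical
  have := Fintype.ofFinite U
  refine ⟨Nat.card U, ?_⟩
  intro n H hH hF
  by_contra hcon
  push Not at hcon
  rw [Nat.sub_self, pow_zero, mul_one, card_toF, Nat.card_eq_fintype_card] at hcon
  apply hF
  obtain ⟨φ⟩ : Nonempty (U ↪ toF H) := Function.Embedding.nonempty_of_card_le (by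
    rw [Fintype.card_coe]; exact hcon.le)
  have hs : ∀ u, ∃ v, (φ u : Finset (Fin n)) = {v} := by
    intro u
    apply Finset.card_eq_one.1
    have h1 := hH _ (mem_toF.1 (φ u).2)
    rwa [Set.ncard_coe_finset] at h1
  choose f hf using hs
  refine ⟨f, ?_, ?_⟩
  · intro x _ y _ hxy
    apply φ.injective
    apply Subtype.ext
    rw [hf, hf, hxy]
  · intro e he
    obtain ⟨u, rfl⟩ := Set.ncard_eq_one.1 (h e he)
    rw [Set.image_singleton]
    have h1 := mem_toF.1 (φ u).2
    rw [hf] at h1
    simpa using h1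

theorem bd_ext {r : ℕ} (hr : 1 ≤ r) {U : Type} [Finite U] {F : Set (Set U)} {e : Set U} {x : U}
    (he : e ∈ F) (hx : x ∈ e) (h : Bd r F) : Bd r (tightExt F e x) := by
  classical
  have := Fintype.ofFinite U
  obtain ⟨q, rfl⟩ : ∃ q, r = q + 1 := ⟨r - 1, by omega⟩
  obtain ⟨C, hC⟩ := h
  refine ⟨C + (Fintype.card U + 1), ?_⟩
  intro n H hH hF
  have hf3 : ∀ s ∈ toF H, s.card = q + 1 := by
    intro s hs
    have := hH _ (mem_toF.1 hs)
    rwa [Set.ncard_coe_finset] at this
  obtain ⟨H', hH', hc, hgood⟩ := cleanR (Fintype.card U + 1) q (n ^ q) (toF H) hf3 (by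
    refine (Finset.card_le_card (Finset.filter_subset _ _)).trans ?_
    rw [Finset.card_powersetCard, Finset.card_univ, Fintype.card_fin]
    exact Nat.choose_le_pow n q)
  have hnot : ¬ Cont F (ofF H') := by
    rintro ⟨f, hf, hfe⟩
    obtain ⟨e', he', hee⟩ := hfe e he
    simp only at hee
    rw [Finset.mem_coe] at he'
    have hfx : f x ∈ e' := by
      rw [← Finset.mem_coe, hee]
      exact Set.mem_image_of_mem f hx
    have hs : (e'.erase (f x)).card = q := by
      rw [Finset.card_erase_of_mem hfx, hf3 _ (hH' he')]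
      rfl
    have h1 := hgood _ hs ⟨e', he', Finset.erase_subset _ _⟩
    have h2 : (univ.image f).card < (exts H' (e'.erase (f x))).card := by
      have : (univ.image f).card ≤ Fintype.card U := Finset.card_image_le
      omega
    obtain ⟨z, hz, hzf⟩ := Finset.exists_mem_notMem_of_card_lt_card h2
    rw [mem_exts] at hz
    have hzf' : ∀ u, f u ≠ z := by
      intro u hu
      exact hzf (Finset.mem_image.2 ⟨u, Finset.mem_univ _, hu⟩)
    apply hF
    refine ⟨fun o => Option.elim o z f, ?_, ?_⟩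
    · have hmem : ∀ u : U, (some u : Option U) ∈ ⋃₀ (tightExt F e x) → u ∈ ⋃₀ F := by
        intro u hu
        obtain ⟨t, ht, hut⟩ := hu
        rcases ht with rfl | ⟨t', ht', rfl⟩
        · rcases hut with hut | ⟨w, hw, hwu⟩
          · exact absurd hut (by simp)
          · rw [Option.some_inj] at hwu
            subst hwu
            exact ⟨e, he, hw.1⟩
        · obtain ⟨w, hw, hwu⟩ := hut
          rw [Option.some_inj] at hwu
          subst hwu
          exact ⟨t', ht', hw⟩
      rintro (_ | u) hu (_ | w) hw huw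
      · rfl
      · exact absurd huw.symm (hzf' w)
      · exact absurd huw (hzf' u)
      · rw [hf (hmem u hu) (hmem w hw) huw]
    · rintro t (rfl | ⟨t', ht', rfl⟩)
      · have h3 := mem_toF.1 (hH' hz.2)
        rw [Finset.coe_insert, Finset.coe_erase, hee] at h3
        rw [Set.image_insert_eq, Set.image_image]
        simp only [Option.elim_none, Option.elim_some]
        have h4 : f '' (e \ {x}) = f '' e \ {f x} := by
          ext w
          constructor
          · rintro ⟨u, ⟨hu, hux⟩, rfl⟩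
            refine ⟨⟨u, hu, rfl⟩, ?_⟩
            intro hcon
            exact hux (hf ⟨e, he, hu⟩ ⟨e, he, hx⟩ hcon)
          · rintro ⟨⟨u, hu, rfl⟩, hux⟩
            refine ⟨u, ⟨hu, ?_⟩, rfl⟩
            rintro rfl
            exact hux rfl
        rw [h4]
        exact h3
      · rw [Set.image_image]
        simp only [Option.elim_some]
        obtain ⟨t'', ht'', h5⟩ := hfe t' ht'
        simp only at h5
        rw [← h5]
        exact mem_toF.1 (hH' ht'')
  have h1 := hC n (ofF H') (by
    rintro s ⟨s', hs', rfl⟩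
    simp only
    rw [Set.ncard_coe_finset]
    exact hf3 s' (hH' hs')) hnot
  rw [card_ofF] at h1
  rw [card_toF]
  rw [Nat.add_sub_cancel] at h1 ⊢
  calc (toF H).card ≤ H'.card + (Fintype.card U + 1) * n ^ q := hc
    _ ≤ C * n ^ q + (Fintype.card U + 1) * n ^ q := Nat.add_le_add_right h1 _
    _ = _ := by ring

theorem bd_cone {r : ℕ} (hr : 1 ≤ r) {U : Type} {F : Set (Set U)} (h : Bd r F) :
    Bd (r + 1) (cone F) := by
  classical
  obtain ⟨C, hC⟩ := h
  refine ⟨C, ?_⟩
  intro n H hH hF
  set L : Fin n → Set (Set (Fin n)) := fun v => {e | v ∉ e ∧ insert v e ∈ H} with hL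
  have hLu : ∀ v, ∀ e ∈ L v, e.ncard = r := by
    rintro v e ⟨h1, h2⟩
    have h3 := hH _ h2
    rw [Set.ncard_insert_of_notMem h1 (Set.toFinite _)] at h3
    omega
  have hLF : ∀ v, ¬ Cont F (L v) := by
    rintro v ⟨f, hf, hfe⟩
    apply hF
    have hv : ∀ u ∈ ⋃₀ F, f u ≠ v := by
      rintro u ⟨e, he, hu⟩ huv
      apply (hfe e he).1
      rw [← huv]
      exact Set.mem_image_of_mem f hu
    have hmem : ∀ u : U, (some u : Option U) ∈ ⋃₀ (cone F) → u ∈ ⋃₀ F := by
      rintro u ⟨t, ⟨t', ht', rfl⟩, hut⟩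
      rcases hut with hut | ⟨w, hw, hwu⟩
      · exact absurd hut (by simp)
      · rw [Option.some_inj] at hwu
        subst hwu
        exact ⟨t', ht', hw⟩
    refine ⟨fun o => Option.elim o v f, ?_, ?_⟩
    · rintro (_ | u) hu (_ | w) hw huw
      · rfl
      · exact absurd huw.symm (hv w (hmem w hw))
      · exact absurd huw (hv u (hmem u hu))
      · rw [hf (hmem u hu) (hmem w hw) huw]
    · rintro t ⟨t', ht', rfl⟩
      simp only
      rw [Set.image_insert_eq, Set.image_image]
      simp only [Option.elim_none, Option.elim_some]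
      exact (hfe t' ht').2
  have hsub : toF H ⊆ univ.biUnion (fun v => (toF (L v)).image (insert v)) := by
    intro e he
    have h1 := hH _ (mem_toF.1 he)
    rw [Set.ncard_coe_finset] at h1
    obtain ⟨v, hv⟩ := Finset.card_pos.1 (by omega : 0 < e.card)
    rw [Finset.mem_biUnion]
    refine ⟨v, Finset.mem_univ _, ?_⟩
    rw [Finset.mem_image]
    refine ⟨e.erase v, ?_, Finset.insert_erase hv⟩
    rw [mem_toF]
    refine ⟨?_, ?_⟩
    · rw [Finset.mem_coe]
      exact Finset.notMem_erase v e
    · rw [← Finset.coe_insert, Finset.insert_erase hv]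
      exact mem_toF.1 he
  rw [card_toF]
  calc (toF H).card ≤ _ := Finset.card_le_card hsub
    _ ≤ ∑ v, ((toF (L v)).image (insert v)).card := Finset.card_biUnion_le
    _ ≤ ∑ _v : Fin n, C * n ^ (r - 1) := by
        refine Finset.sum_le_sum fun v _ => Finset.card_image_le.trans ?_
        rw [← card_toF]
        exact hC n (L v) (hLu v) (hLF v)
    _ = n * (C * n ^ (r - 1)) := by simp
    _ = C * n ^ (r + 1 - 1) := by
        obtain ⟨q, rfl⟩ : ∃ q, r = q + 1 := ⟨r - 1, by omega⟩
        rw [Nat.add_sub_cancel, Nat.add_sub_cancel, pow_succ]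
        ring

theorem bd_union {r : ℕ} {U V : Type} [Finite U] {F : Set (Set U)}
    {F' : Set (Set V)} (h : Bd r F) (h' : Bd r F') : Bd r (disjUnion F F') := by
  classical
  have := Fintype.ofFinite U
  obtain ⟨C, hC⟩ := h
  obtain ⟨C', hC'⟩ := h'
  refine ⟨C + C' + Fintype.card U, ?_⟩
  intro n H hH hF
  by_cases hcon : Cont F H
  · obtain ⟨f, hf, hfe⟩ := hcon
    set X : Finset (Fin n) := univ.image f with hX
    set H2 : Set (Set (Fin n)) := {e ∈ H | ∀ x ∈ X, x ∉ e} with hH2
    have h2 : ¬ Cont F' H2 := by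
      rintro ⟨g, hg, hge⟩
      apply hF
      have hne : ∀ (u : U) (w : V), w ∈ ⋃₀ F' → f u ≠ g w := by
        rintro u w ⟨e, he, hw⟩ huw
        refine (hge e he).2 (f u) (Finset.mem_image.2 ⟨u, Finset.mem_univ _, rfl⟩) ?_
        rw [huw]
        exact Set.mem_image_of_mem g hw
      have hmem1 : ∀ u : U, (Sum.inl u : U ⊕ V) ∈ ⋃₀ (disjUnion F F') → u ∈ ⋃₀ F := by
        rintro u ⟨t, (⟨t', ht', rfl⟩ | ⟨t', ht', rfl⟩), hut⟩
        · obtain ⟨w, hw, hwu⟩ := hut
          rw [Sum.inl.injEq] at hwu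
          subst hwu
          exact ⟨t', ht', hw⟩
        · obtain ⟨w, hw, hwu⟩ := hut
          exact absurd hwu (by simp)
      have hmem2 : ∀ u : V, (Sum.inr u : U ⊕ V) ∈ ⋃₀ (disjUnion F F') → u ∈ ⋃₀ F' := by
        rintro u ⟨t, (⟨t', ht', rfl⟩ | ⟨t', ht', rfl⟩), hut⟩
        · obtain ⟨w, hw, hwu⟩ := hut
          exact absurd hwu (by simp)
        · obtain ⟨w, hw, hwu⟩ := hut
          rw [Sum.inr.injEq] at hwu
          subst hwu
          exact ⟨t', ht', hw⟩
      refine ⟨Sum.elim f g, ?_, ?_⟩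
      · rintro (u | u) hu (w | w) hw huw
        · rw [hf (hmem1 u hu) (hmem1 w hw) huw]
        · exact absurd huw (hne u w (hmem2 w hw))
        · exact absurd huw.symm (hne w u (hmem2 u hu))
        · rw [hg (hmem2 u hu) (hmem2 w hw) huw]
      · rintro t (⟨t', ht', rfl⟩ | ⟨t', ht', rfl⟩)
        · simp only
          rw [Set.image_image]
          simp only [Sum.elim_inl]
          exact hfe t' ht'
        · simp only
          rw [Set.image_image]
          simp only [Sum.elim_inr]
          exact (hge t' ht').1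
    have h3 := hC' n H2 (fun e he => hH e he.1) h2
    have hsub : toF H ⊆ toF H2 ∪ X.biUnion (fun x => (univ.powersetCard (r - 1)).image
        (fun s : Finset (Fin n) => insert x s)) := by
      intro e he
      have h1 := hH _ (mem_toF.1 he)
      rw [Set.ncard_coe_finset] at h1
      rw [Finset.mem_union]
      by_cases hx : ∀ x ∈ X, x ∉ e
      · left
        rw [mem_toF]
        exact ⟨mem_toF.1 he, fun x hxX => by rw [Finset.mem_coe]; exact hx x hxX⟩
      · right
        push Not at hx
        obtain ⟨x, hxX, hxe⟩ := hx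
        rw [Finset.mem_biUnion]
        refine ⟨x, hxX, ?_⟩
        rw [Finset.mem_image]
        refine ⟨e.erase x, ?_, Finset.insert_erase hxe⟩
        rw [Finset.mem_powersetCard]
        exact ⟨Finset.subset_univ _, by rw [Finset.card_erase_of_mem hxe, h1]⟩
    have h4 : (X.biUnion (fun x => (univ.powersetCard (r - 1)).image
        (fun s : Finset (Fin n) => insert x s))).card ≤ Fintype.card U * n ^ (r - 1) := by
      refine Finset.card_biUnion_le.trans ?_
      calc ∑ x ∈ X, ((univ.powersetCard (r - 1)).image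
            (fun s : Finset (Fin n) => insert x s)).card ≤ ∑ _x ∈ X, n ^ (r - 1) := by
            refine Finset.sum_le_sum fun x _ => Finset.card_image_le.trans ?_
            rw [Finset.card_powersetCard, Finset.card_univ, Fintype.card_fin]
            exact Nat.choose_le_pow n (r - 1)
        _ = X.card * n ^ (r - 1) := by rw [Finset.sum_const, smul_eq_mul]
        _ ≤ _ := Nat.mul_le_mul_right _ Finset.card_image_le
    rw [card_toF] at h3 ⊢
    calc (toF H).card ≤ _ := Finset.card_le_card hsub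
      _ ≤ (toF H2).card + _ := Finset.card_union_le _ _
      _ ≤ C' * n ^ (r - 1) + Fintype.card U * n ^ (r - 1) := Nat.add_le_add h3 h4
      _ ≤ (C + C' + Fintype.card U) * n ^ (r - 1) := by
        rw [← add_mul]
        exact Nat.mul_le_mul_right _ (by omega)
  · refine (hC n H hH hcon).trans (Nat.mul_le_mul_right _ (by omega))

theorem bd_bip {r a b : ℕ} (hr : 3 ≤ r) (ha : 1 ≤ a) (har : a ≤ r.choose 2) {W : Type} [Finite W]
    {G : SimpleGraph W} (hG : IsStacked a b G) : Bd r (expansionR r G) := by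
  obtain ⟨q, rfl⟩ : ∃ q, r = q + 1 := ⟨r - 1, by omega⟩
  have hc := le_choose (by omega : 2 ≤ q)
  obtain ⟨C, D, hC, h⟩ := upperR (by omega : 2 ≤ q) ha har (by omega) hG
  refine ⟨⌈C⌉₊ + D, ?_⟩
  intro n H hH hF
  have h1 := h n H hH (fun hcon => hF hcon.cont)
  rw [ev_choose (by omega), Real.rpow_natCast] at h1
  have h2 : C ≤ (⌈C⌉₊ : ℝ) := Nat.le_ceil C
  have h3 : (H.ncard : ℝ) ≤ ((⌈C⌉₊ + D : ℕ) : ℝ) * (n : ℝ) ^ q := by
    calc (H.ncard : ℝ) ≤ C * (n : ℝ) ^ q + D * (n : ℝ) ^ q := h1
      _ ≤ (⌈C⌉₊ : ℝ) * (n : ℝ) ^ q + D * (n : ℝ) ^ q := by gcongr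
      _ = _ := by push_cast; ring
  rw [Nat.add_sub_cancel]
  exact_mod_cast h3

theorem fam_bd {r : ℕ} {U : Type} {F : Set (Set U)} (h : Fam r U F) :
    Finite U ∧ 1 ≤ r ∧ Bd r F := by
  induction h with
  | one U F h => exact ⟨inferInstance, le_rfl, bd_one h⟩
  | bip r a b hr ha har W G hG => exact ⟨inferInstance, by omega, bd_bip hr ha har hG⟩
  | sub r U U' F F' hF _ ih =>
    obtain ⟨h1, h2, C, hC⟩ := ih
    obtain ⟨f, hf, _⟩ := id hF
    exact ⟨Finite.of_injective f hf, h2, C, fun n H hH hcon =>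
      hC n H hH (fun h => hcon (hF.trans_cont h))⟩
  | ext r U F e x he hx _ ih =>
    obtain ⟨h1, h2, h3⟩ := ih
    exact ⟨inferInstance, h2, bd_ext h2 he hx h3⟩
  | union r U V F F' _ _ ih ih' =>
    obtain ⟨h1, h2, h3⟩ := ih
    obtain ⟨h1', _, h3'⟩ := ih'
    exact ⟨inferInstance, h2, bd_union h3 h3'⟩
  | cone r U F _ ih =>
    obtain ⟨h1, h2, h3⟩ := ih
    exact ⟨inferInstance, by omega, bd_cone h2 h3⟩

theorem fam_bigO {r : ℕ} {U : Type} {F : Set (Set U)} (h : Fam r U F) :
    (fun n : ℕ => (exR r n F : ℝ)) =O[atTop] (fun n : ℕ => (n : ℝ) ^ (r - 1)) := by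
  obtain ⟨h1, _, C, hC⟩ := fam_bd h
  refine IsBigO.of_bound C (eventually_atTop.2 ⟨Nat.card U, fun n hn => ?_⟩)
  rw [Real.norm_natCast, Real.norm_of_nonneg (by positivity)]
  have hle : exR r n F ≤ C * n ^ (r - 1) := by
    apply csSup_le'
    rintro m ⟨H, hH, hHF, rfl⟩
    exact hC n H hH (fun hcon => hHF (hcon.contains hn))
  exact_mod_cast hle

end Pool.Agent.TH998.Exp
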