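import Pool.Agent.TH998.Exp.RClean
import Pool.Agent.TH998.Mex.Fin

/-!
# Turán numbers of expansions of higher uniformity
-/

set_option autoImplicit false

namespace Pool.Agent.TH998.Exp

open Finset Pool.Agent.H63R3.PTT Pool.Agent.W834.NG Pool.Agent.TH998.Mex Filter Asymptotics

/-- The Turán number `ex_r(n, F)`: the largest number of edges in an `r`-graph on `n` vertices
without a copy of `F`. -/
noncomputable def exR (r n : ℕ) {U : Type} (F : Set (Set U)) : ℕ :=
  sSup {m | ∃ H : Set (Set (Fin n)), (∀ e ∈ H, e.ncard = r) ∧ ¬ Contains F H ∧ H.ncard = m}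

/-- The `r`-uniform expansion `G⁺`: its vertices are those of `G` and `r - 2` new vertices for each
edge of `G`; its edges are the edges of `G` together with their new vertices. -/
def expansionR (r : ℕ) {W : Type} (G : SimpleGraph W) :
    Set (Set (W ⊕ (G.edgeSet × Fin (r - 2)))) :=
  {e | ∃ (x y : W) (h : G.Adj x y), e = {Sum.inl x, Sum.inl y} ∪
    Set.range (fun i : Fin (r - 2) => Sum.inr (⟨s(x, y), h⟩, i))}

theorem reduceR {q : ℕ} (hq : 2 ≤ q) {W : Type} [Fintype W] (G : SimpleGraph W) (E C : ℝ)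
    (hC : ∀ (V : Type) [Fintype V] [DecidableEq V] (Γ : SimpleGraph V), G.Free Γ →
      (∀ x y, Γ.Adj x y → Nat.card W ≤ {z | Γ.Adj x z ∧ Γ.Adj y z}.ncard) →
      (cl Γ (q + 1) univ : ℝ) ≤ C * (Fintype.card V : ℝ) ^ E) :
    ∃ D : ℕ, ∀ (n : ℕ) (H : Set (Set (Fin n))), (∀ e ∈ H, e.ncard = q + 1) →
      ¬ Contains (expansionR (q + 1) G) H →
      (H.ncard : ℝ) ≤ C * (n : ℝ) ^ E + D * (n : ℝ) ^ q := by
  classical
  have : Fintype G.edgeSet := Fintype.ofFinite _
  refine ⟨Fintype.card W + Fintype.card G.edgeSet * (q - 1) + 1, ?_⟩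
  set D := Fintype.card W + Fintype.card G.edgeSet * (q - 1) + 1 with hD
  intro n H hH3 hHF
  set Hf : Finset (Finset (Fin n)) := univ.filter (fun e => (e : Set (Fin n)) ∈ H) with hHf
  have hmem : ∀ e, e ∈ Hf ↔ (e : Set (Fin n)) ∈ H := by
    intro e
    rw [hHf, Finset.mem_filter]
    simp
  have hcard : H.ncard = Hf.card := by
    have h1 : H = (fun e : Finset (Fin n) => (e : Set (Fin n))) '' (Hf : Set (Finset (Fin n))) := by
      ext e
      rw [Set.mem_image]
      constructor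
      · intro he
        refine ⟨e.toFinset, ?_, by simp⟩
        rw [Finset.mem_coe, hmem]
        simpa using he
      · rintro ⟨e', he', rfl⟩
        rw [Finset.mem_coe, hmem] at he'
        exact he'
    rw [h1, Set.ncard_image_of_injective _ Finset.coe_injective, Set.ncard_coe_finset]
  have hf3 : ∀ e ∈ Hf, e.card = q + 1 := by
    intro e he
    have := hH3 _ ((hmem e).1 he)
    rwa [Set.ncard_coe_finset] at this
  obtain ⟨H', hH', hc, hgood⟩ := cleanR D q (n ^ q) Hf hf3 (by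
    refine (Finset.card_le_card (Finset.filter_subset _ _)).trans ?_
    rw [Finset.card_powersetCard, Finset.card_univ, Fintype.card_fin]
    exact Nat.choose_le_pow n q)
  have hf3' : ∀ e ∈ H', e.card = q + 1 := fun e he => hf3 e (hH' he)
  have hnot : G.Free (shadowG H') := by
    rintro ⟨φ⟩
    obtain ⟨z, hz1, hz2, hz3⟩ := expandR hq G hf3' hgood (by omega) φ φ.injective
      (fun x y h => φ.toHom.map_adj h)
    apply hHF
    refine ⟨Sum.elim φ z, ?_, ?_⟩
    · rintro (a | a) (b | b) hab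
      · simp only [Sum.elim_inl] at hab
        rw [φ.injective hab]
      · simp only [Sum.elim_inl, Sum.elim_inr] at hab
        exact absurd hab (hz2 a b)
      · simp only [Sum.elim_inl, Sum.elim_inr] at hab
        exact absurd hab.symm (hz2 b a)
      · simp only [Sum.elim_inr] at hab
        rw [hz1 hab]
    · rintro e ⟨x, y, h, rfl⟩
      have h1 := (hmem _).1 (hH' (hz3 x y h))
      rw [Set.image_union, Set.image_insert_eq, Set.image_singleton, ← Set.range_comp]
      simp only [Finset.coe_union, Finset.coe_insert, Finset.coe_singleton, Finset.coe_image,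
        Finset.coe_univ, Set.image_univ] at h1
      exact h1
  have hcod : ∀ x y, (shadowG H').Adj x y →
      Nat.card W ≤ {z | (shadowG H').Adj x z ∧ (shadowG H').Adj y z}.ncard := by
    intro x y hxy
    have h1 := many_common hq hf3' hgood x y hxy
    have h2 : {z | (shadowG H').Adj x z ∧ (shadowG H').Adj y z} =
        (cn (shadowG H') x y : Set (Fin n)) := by
      ext z
      rw [Finset.mem_coe, mem_cn]
      rfl
    rw [h2, Set.ncard_coe_finset, Nat.card_eq_fintype_card]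
    omega
  have h1 := hC (Fin n) (shadowG H') hnot hcod
  rw [Fintype.card_fin] at h1
  have h2 : (H'.card : ℝ) ≤ cl (shadowG H') (q + 1) univ := by exact_mod_cast card_le_clR hf3'
  have h3 : (Hf.card : ℝ) ≤ H'.card + D * (n : ℝ) ^ q := by exact_mod_cast hc
  rw [hcard]
  linarith

/-- the upper bound -/
theorem upperR {q a a' b : ℕ} (hq : 2 ≤ q) (ha : 1 ≤ a) (haa : a ≤ a') (hqa : q ≤ a') {W : Type}
    [Finite W] {G : SimpleGraph W} (hG : IsStacked a b G) :
    ∃ (C : ℝ) (D : ℕ), 0 < C ∧ ∀ (n : ℕ) (H : Set (Set (Fin n))), (∀ e ∈ H, e.ncard = q + 1) →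
      ¬ Contains (expansionR (q + 1) G) H →
      (H.ncard : ℝ) ≤ C * (n : ℝ) ^ ev (q + 1) a' + D * (n : ℝ) ^ q := by
  classical
  have := Fintype.ofFinite W
  obtain ⟨C, hC, h⟩ := U1 q a' (by omega) hqa b
  obtain ⟨D, hD⟩ := reduceR hq G (ev (q + 1) a') C (by
    intro V _ _ Γ hΓ hcod
    have hfree : (completeBipartiteGraph (Fin a') (Fin b)).Free Γ := by
      intro hcon
      apply hΓ
      refine embed_stacked hG ha Γ hcod (SimpleGraph.IsContained.trans ?_ hcon)
      refine ⟨⟨⟨Sum.map (Fin.castLE haa) id, ?_⟩, ?_⟩⟩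
      · rintro (i | i) (j | j) hij <;> simp_all
      · exact Function.Injective.sumMap (Fin.castLE_injective haa) Function.injective_id
    have h1 := h V Γ univ (loc_of_free hfree)
    rwa [Finset.card_univ] at h1)
  exact ⟨C, D, hC, hD⟩

theorem bddR (r n : ℕ) {U : Type} (F : Set (Set U)) :
    BddAbove {m | ∃ H : Set (Set (Fin n)), (∀ e ∈ H, e.ncard = r) ∧ ¬ Contains F H ∧
      H.ncard = m} := by
  refine ⟨(Set.univ : Set (Set (Fin n))).ncard, ?_⟩
  rintro m ⟨H, _, _, rfl⟩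
  exact Set.ncard_le_ncard (Set.subset_univ _) (Set.toFinite _)

theorem Contains.trans {U V X : Type} {F : Set (Set U)} {H : Set (Set V)} {K : Set (Set X)}
    (h1 : Contains F H) (h2 : Contains H K) : Contains F K := by
  obtain ⟨f, hf, hf'⟩ := h1
  obtain ⟨g, hg, hg'⟩ := h2
  refine ⟨g ∘ f, hg.comp hf, fun e he => ?_⟩
  rw [Set.image_comp]
  exact hg' _ (hf' e he)

theorem exR_mono {r n : ℕ} {U V : Type} {F : Set (Set U)} {F' : Set (Set V)}
    (h : Contains F F') : exR r n F ≤ exR r n F' := by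
  apply csSup_le'
  rintro m ⟨H, hH, hHF, rfl⟩
  exact le_csSup (bddR r n F') ⟨H, hH, fun hcon => hHF (h.trans hcon), rfl⟩

theorem ev_choose {q : ℕ} (hq : 1 ≤ q) : ev (q + 1) ((q + 1).choose 2) = q := by
  unfold ev
  rw [Nat.cast_choose_two]
  have h1 : (q : ℝ) ≠ 0 := by
    have : (1 : ℝ) ≤ q := by exact_mod_cast hq
    linarith
  have h2 : (q : ℝ) + 1 ≠ 0 := by positivity
  push_cast
  rw [show (q : ℝ) + 1 - 1 = q by ring]
  have h3 : 2 * (((q : ℝ) + 1) * q / 2) = (q + 1) * q := by ring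
  rw [h3, div_eq_iff (mul_ne_zero h2 h1)]
  ring

theorem ev_eq {r a : ℕ} (ha : 1 ≤ a) :
    ev r a = (r : ℝ) - r * (r - 1) / (2 * a) := by
  have h1 : (1 : ℝ) ≤ a := by exact_mod_cast ha
  unfold ev
  field_simp
  ring

theorem ev_ge {q a : ℕ} (hq : 1 ≤ q) (h : (q + 1).choose 2 ≤ a) : (q : ℝ) ≤ ev (q + 1) a := by
  have h0 : 1 ≤ (q + 1).choose 2 := Nat.choose_pos (by omega)
  have h1 : (1 : ℝ) ≤ q := by exact_mod_cast hq
  have h2 : (((q + 1).choose 2 : ℕ) : ℝ) ≤ a := by exact_mod_cast h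
  rw [Nat.cast_choose_two] at h2
  rw [ev_eq (by omega)]
  push_cast at h2 ⊢
  have ha : (0 : ℝ) < a := by
    have : 1 ≤ a := by omega
    exact_mod_cast this
  have h3 : ((q : ℝ) + 1) * (q + 1 - 1) / (2 * a) ≤ 1 := by
    rw [div_le_one (by positivity)]
    linarith
  linarith

theorem ev_gt {q a : ℕ} (hq : 1 ≤ q) (h : (q + 1).choose 2 < a) : (q : ℝ) < ev (q + 1) a := by
  have h0 : 1 ≤ (q + 1).choose 2 := Nat.choose_pos (by omega)
  have h1 : (1 : ℝ) ≤ q := by exact_mod_cast hq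
  have h2 : (((q + 1).choose 2 : ℕ) : ℝ) < a := by exact_mod_cast h
  rw [Nat.cast_choose_two] at h2
  rw [ev_eq (by omega)]
  push_cast at h2 ⊢
  have ha : (0 : ℝ) < a := by
    have : 1 ≤ a := by omega
    exact_mod_cast this
  have h3 : ((q : ℝ) + 1) * (q + 1 - 1) / (2 * a) < 1 := by
    rw [div_lt_one (by positivity)]
    linarith
  linarith

theorem le_choose {q : ℕ} (hq : 2 ≤ q) : q + 1 ≤ (q + 1).choose 2 := by
  rw [Nat.choose_two_right, Nat.le_div_iff_mul_le (by norm_num)]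
  exact Nat.mul_le_mul_left _ (by omega)

theorem bigO_upper {q a a' b : ℕ} (hq : 2 ≤ q) (ha : 1 ≤ a) (haa : a ≤ a')
    (hqa : (q + 1).choose 2 ≤ a') {W : Type} [Finite W] {G : SimpleGraph W}
    (hG : IsStacked a b G) {U : Type} {F : Set (Set U)} (hF : Contains F (expansionR (q + 1) G)) :
    (fun n : ℕ => (exR (q + 1) n F : ℝ)) =O[atTop] (fun n : ℕ => (n : ℝ) ^ ev (q + 1) a') := by
  have hc := le_choose hq
  obtain ⟨C, D, hC, h⟩ := upperR hq ha haa (by omega) hG
  refine IsBigO.of_bound (C + D) (eventually_atTop.2 ⟨1, fun n hn => ?_⟩)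
  rw [Real.norm_natCast, Real.norm_of_nonneg (by positivity)]
  have hn1 : (1 : ℝ) ≤ n := by exact_mod_cast hn
  have hle : exR (q + 1) n F ≤ ⌊C * (n : ℝ) ^ ev (q + 1) a' + D * (n : ℝ) ^ q⌋₊ := by
    refine (exR_mono hF).trans ?_
    apply csSup_le'
    rintro m ⟨H, hH3, hHF, rfl⟩
    exact Nat.le_floor (h n H hH3 hHF)
  have h1 : (n : ℝ) ^ q ≤ (n : ℝ) ^ ev (q + 1) a' := by
    rw [← Real.rpow_natCast]
    exact Real.rpow_le_rpow_of_exponent_le hn1 (ev_ge (by omega) hqa)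
  calc (exR (q + 1) n F : ℝ) ≤ _ := Nat.cast_le.2 hle
    _ ≤ C * (n : ℝ) ^ ev (q + 1) a' + D * (n : ℝ) ^ q := Nat.floor_le (by positivity)
    _ ≤ C * (n : ℝ) ^ ev (q + 1) a' + D * (n : ℝ) ^ ev (q + 1) a' := by gcongr
    _ = _ := by ring

/-- stacked graphs over `K_{a,b}` with `a ≤ r (r - 1) / 2` -/
theorem bigO_small {q a b : ℕ} (hq : 2 ≤ q) (ha : 1 ≤ a) (haa : a ≤ (q + 1).choose 2)
    {W : Type} [Finite W] {G : SimpleGraph W} (hG : IsStacked a b G) {U : Type}
    {F : Set (Set U)} (hF : Contains F (expansionR (q + 1) G)) :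
    (fun n : ℕ => (exR (q + 1) n F : ℝ)) =O[atTop] (fun n : ℕ => (n : ℝ) ^ q) := by
  have h := bigO_upper hq ha haa le_rfl hG hF
  rw [ev_choose (by omega)] at h
  simpa only [Real.rpow_natCast] using h

/-! ### lower bounds -/

theorem lower_cl {r : ℕ} {V : Type} [Finite V] (Γ : SimpleGraph V) {a b : ℕ} (ha : 1 ≤ a)
    (hb : 1 ≤ b) (hfree : (completeBipartiteGraph (Fin a) (Fin b)).Free Γ) {W : Type}
    {G : SimpleGraph W} (hG : (completeBipartiteGraph (Fin a) (Fin b)).IsContained G) {U : Type}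
    {F : Set (Set U)} (hF : Contains (expansionR r G) F) {n : ℕ} (hn : Nat.card V ≤ n) :
    numCliques r Γ ≤ exR r n F := by
  classical
  have := Fintype.ofFinite V
  obtain ⟨ι⟩ : Nonempty (V ↪ Fin n) := Function.Embedding.nonempty_of_card_le (by
    rw [Fintype.card_fin, ← Nat.card_eq_fintype_card]
    exact hn)
  refine le_trans ?_ (exR_mono hF)
  set H : Set (Set (Fin n)) := {e | ∃ S : Finset V, Γ.IsNClique r S ∧ e = ι '' (S : Set V)} with hH
  have hunif : ∀ e ∈ H, e.ncard = r := by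
    rintro e ⟨S, hS, rfl⟩
    rw [Set.ncard_image_of_injective _ ι.injective, Set.ncard_coe_finset]
    exact hS.2
  have hnc : ¬ Contains (expansionR r G) H := by
    rintro ⟨f, hf, hfe⟩
    obtain ⟨φ⟩ := hG
    apply hfree
    have hkey : ∀ x y, (completeBipartiteGraph (Fin a) (Fin b)).Adj x y → ∃ S : Finset V,
        Γ.IsNClique r S ∧ (∃ v ∈ S, ι v = f (Sum.inl (φ x))) ∧
          ∃ v ∈ S, ι v = f (Sum.inl (φ y)) := by
      intro x y hxy
      have h1 := hfe _ ⟨φ x, φ y, φ.toHom.map_adj hxy, rfl⟩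
      obtain ⟨S, hS, hSe⟩ := h1
      refine ⟨S, hS, ?_, ?_⟩
      · have h2 : f (Sum.inl (φ x)) ∈ ι '' (S : Set V) := by
          rw [← hSe]
          exact Set.mem_image_of_mem f (Or.inl (by simp))
        obtain ⟨v, hv, hvx⟩ := h2
        exact ⟨v, hv, hvx⟩
      · have h2 : f (Sum.inl (φ y)) ∈ ι '' (S : Set V) := by
          rw [← hSe]
          exact Set.mem_image_of_mem f (Or.inl (by simp))
        obtain ⟨v, hv, hvx⟩ := h2
        exact ⟨v, hv, hvx⟩
    have hex : ∀ x : Fin a ⊕ Fin b, ∃ v, ι v = f (Sum.inl (φ x)) := by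
      rintro (i | j)
      · obtain ⟨S, _, ⟨v, _, hv⟩, _⟩ := hkey (Sum.inl i) (Sum.inr ⟨0, hb⟩) (by simp)
        exact ⟨v, hv⟩
      · obtain ⟨S, _, _, ⟨v, _, hv⟩⟩ := hkey (Sum.inl ⟨0, ha⟩) (Sum.inr j) (by simp)
        exact ⟨v, hv⟩
    choose g hg using hex
    have hginj : Function.Injective g := by
      intro x y hxy
      have h1 : f (Sum.inl (φ x)) = f (Sum.inl (φ y)) := by rw [← hg, ← hg, hxy]
      exact φ.injective (Sum.inl_injective (hf h1))
    refine ⟨⟨⟨g, ?_⟩, hginj⟩⟩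
    intro x y hxy
    obtain ⟨S, hS, ⟨v, hv, hvx⟩, ⟨w, hw, hwy⟩⟩ := hkey x y hxy
    have hv' : v = g x := ι.injective (hvx.trans (hg x).symm)
    have hw' : w = g y := ι.injective (hwy.trans (hg y).symm)
    rw [← hv', ← hw']
    apply hS.1 hv hw
    rw [hv', hw']
    exact fun h => hxy.ne (hginj h)
  have hcount : numCliques r Γ ≤ H.ncard := by
    rw [numCliques]
    refine Set.ncard_le_ncard_of_injOn (fun S : Finset V => ι '' (S : Set V)) ?_ ?_ (Set.toFinite _)
    · intro S hS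
      exact ⟨S, hS, rfl⟩
    · intro S _ T _ hST
      exact Finset.coe_injective (ι.injective.image_injective hST)
  exact hcount.trans (le_csSup (bddR r n _) ⟨H, hunif, hnc, rfl⟩)

theorem fam_vertices {m r b : ℕ} (hm : 1 ≤ m) (hr : 3 ≤ r) (hb : (r - 2) * m.factorial < b)
    (l : ℕ) (hl : r ≤ l) : ∃ (V : Type) (_ : Finite V) (G : SimpleGraph V),
      (completeBipartiteGraph (Fin (m + 1)) (Fin b)).Free G ∧
      Nat.card V ≤ 2 ^ ((m + 1) * l) ∧
      ((2 : ℝ) ^ ((m + 1) * l)) ^ ev r (m + 1) ≤ (2 * r) ^ r * numCliques r G := by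
  classical
  obtain ⟨K, _, _, _, φ, _, hφ, hK, hA, _⟩ := exists_field m l hm (by omega)
  let _ : Fintype (AA φ) := Fintype.ofFinite _
  obtain ⟨χ, hχ⟩ := exists_col K r (by omega)
  obtain ⟨c, hdiag, hc⟩ := CG_cliques hm hφ χ
  refine ⟨K × AA φ, inferInstance, CG φ m χ c, ?_, ?_, ?_⟩
  · refine free_of_noK (CG_noK hm χ c hdiag ?_ (by rw [Fintype.card_fin]; exact hb)) b le_rfl
    refine lt_of_le_of_lt ?_ hb
    exact Nat.le_mul_of_pos_left _ (by omega)
  · rw [Nat.card_prod, Nat.card_eq_fintype_card (α := K), hK]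
    calc 2 ^ (m * l) * Nat.card (AA φ) ≤ 2 ^ (m * l) * 2 ^ l := Nat.mul_le_mul_left _ hA
      _ = 2 ^ ((m + 1) * l) := by rw [← pow_add]; congr 1; ring
  · have he : ((2 : ℝ) ^ ((m + 1) * l)) ^ ev r (m + 1) =
        ((2 : ℝ) ^ ((2 * m + 1) * l)) ^ Mex.em r (m + 1) := by
      rw [← Real.rpow_natCast, ← Real.rpow_natCast, ← Real.rpow_mul (by norm_num),
        ← Real.rpow_mul (by norm_num)]
      congr 1
      unfold ev Mex.em
      have h4 : 2 * ((m + 1 : ℕ) : ℝ) - 1 ≠ 0 := by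
        push_cast
        have : (1 : ℝ) ≤ m := by exact_mod_cast hm
        linarith
      have h5 : (((2 * m + 1) * l : ℕ) : ℝ) = (2 * ((m + 1 : ℕ) : ℝ) - 1) * l := by
        push_cast
        ring
      rw [h5]
      field_simp
      push_cast
      ring
    rw [he]
    refine real_step hr hl hm ?_
    rw [numCliques_cl]
    rw [← Nat.card_eq_fintype_card (α := AA φ)] at hc
    have hApos : 0 < Nat.card (AA φ) := by
      have : Nonempty (AA φ) := ⟨⟨1, one_ne_zero, map_one φ⟩⟩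
      exact Nat.card_pos
    have hchoose : r ≤ r.choose 2 := by
      rw [Nat.choose_two_right, Nat.le_div_iff_mul_le (by norm_num)]
      have : 2 ≤ r - 1 := by omega
      exact Nat.mul_le_mul_left r this
    have h1 : (2 ^ (m * l) / r) ^ r ≤ ∏ i : Fin r, Fintype.card {k : K // χ k = i} := by
      calc (2 ^ (m * l) / r) ^ r = ∏ _i : Fin r, 2 ^ (m * l) / r := by
            rw [Finset.prod_const, Finset.card_univ, Fintype.card_fin]
        _ ≤ _ := Finset.prod_le_prod' fun i _ => by rw [← hK]; exact hχ i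
    have h2 : (2 ^ (m * l) / r) ^ r * Nat.card (AA φ) ^ r ≤
        (cl (CG φ m χ c) r univ * (2 ^ l) ^ (r.choose 2 - r)) * Nat.card (AA φ) ^ r := by
      calc (2 ^ (m * l) / r) ^ r * Nat.card (AA φ) ^ r
          ≤ (∏ i : Fin r, Fintype.card {k : K // χ k = i}) * Nat.card (AA φ) ^ r :=
            Nat.mul_le_mul_right _ h1
        _ ≤ cl (CG φ m χ c) r univ * Nat.card (AA φ) ^ r.choose 2 := hc
        _ = (cl (CG φ m χ c) r univ * Nat.card (AA φ) ^ (r.choose 2 - r)) *
              Nat.card (AA φ) ^ r := by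
            rw [mul_assoc, ← pow_add, Nat.sub_add_cancel hchoose]
        _ ≤ _ := by gcongr
    exact Nat.le_of_mul_le_mul_right h2 (pow_pos hApos r)

theorem exists_scale (g k0 m : ℕ) (hg : 1 ≤ g) (hm : 2 ^ (g * k0) ≤ m) :
    ∃ k, k0 ≤ k ∧ 2 ^ (g * k) ≤ m ∧ m < 2 ^ (g * (k + 1)) := by
  have hex : ∃ k, m < 2 ^ (g * (k + 1)) := by
    refine ⟨m, ?_⟩
    calc m < 2 ^ m := Nat.lt_two_pow_self
      _ ≤ 2 ^ (g * (m + 1)) := Nat.pow_le_pow_right (by norm_num) (by nlinarith)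
  refine ⟨Nat.find hex, ?_, ?_, Nat.find_spec hex⟩
  · by_contra hcon
    push Not at hcon
    have h1 := Nat.find_spec hex
    have h2 : 2 ^ (g * (Nat.find hex + 1)) ≤ 2 ^ (g * k0) := by
      apply Nat.pow_le_pow_right (by norm_num)
      exact Nat.mul_le_mul_left _ hcon
    omega
  · rcases Nat.eq_zero_or_pos (Nat.find hex) with h0 | h0
    · rw [h0]
      have h3 : 2 ^ (g * 0) ≤ 2 ^ (g * k0) := by
        apply Nat.pow_le_pow_right (by norm_num)
        exact Nat.mul_le_mul_left _ (Nat.zero_le _)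
      exact h3.trans hm
    · have h1 := Nat.find_min hex (m := Nat.find hex - 1) (by omega)
      have e : Nat.find hex - 1 + 1 = Nat.find hex := by omega
      rw [e] at h1
      omega

/-- the lower bound -/
theorem bigO_lower {r a b : ℕ} (hr : 3 ≤ r) (hra : r ≤ a + 1)
    (hb : (r - 2) * (a - 1).factorial < b) {W : Type} {G : SimpleGraph W}
    (hG : (completeBipartiteGraph (Fin a) (Fin b)).IsContained G) {U : Type} {F : Set (Set U)}
    (hF : Contains (expansionR r G) F) :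
    (fun n : ℕ => (n : ℝ) ^ ev r a) =O[atTop] (fun n : ℕ => (exR r n F : ℝ)) := by
  obtain ⟨m, rfl⟩ : ∃ m, a = m + 1 := ⟨a - 1, by omega⟩
  have hE := ev_nonneg hra
  refine IsBigO.of_bound (((2 : ℝ) ^ (m + 1)) ^ ev r (m + 1) * (2 * r) ^ r)
    (eventually_atTop.2 ⟨2 ^ ((m + 1) * r), fun n hn => ?_⟩)
  obtain ⟨k, hk0, hk1, hk2⟩ := exists_scale (m + 1) r n (by omega) hn
  obtain ⟨V, _, Γ, hΓ, hV, hcl⟩ := fam_vertices (m := m) (r := r) (b := b) (by omega) hr hb k hk0
  have hb1 : 1 ≤ b := by omega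
  have h1 := lower_cl Γ (by omega) hb1 hΓ hG hF (hV.trans hk1)
  rw [Real.norm_of_nonneg (by positivity), Real.norm_natCast]
  have h2 : (n : ℝ) ≤ 2 ^ (m + 1) * 2 ^ ((m + 1) * k) := by
    have h3 : n ≤ 2 ^ ((m + 1) * (k + 1)) := hk2.le
    have h4 : 2 ^ ((m + 1) * (k + 1)) = 2 ^ (m + 1) * 2 ^ ((m + 1) * k) := by
      rw [← pow_add]
      congr 1
      ring
    rw [h4] at h3
    exact_mod_cast h3
  calc (n : ℝ) ^ ev r (m + 1) ≤ (2 ^ (m + 1) * 2 ^ ((m + 1) * k)) ^ ev r (m + 1) :=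
        Real.rpow_le_rpow (Nat.cast_nonneg _) h2 hE
    _ = (2 ^ (m + 1)) ^ ev r (m + 1) * ((2 : ℝ) ^ ((m + 1) * k)) ^ ev r (m + 1) :=
        Real.mul_rpow (by positivity) (by positivity)
    _ ≤ (2 ^ (m + 1)) ^ ev r (m + 1) * ((2 * r) ^ r * numCliques r Γ) := by gcongr
    _ ≤ (2 ^ (m + 1)) ^ ev r (m + 1) * ((2 * r) ^ r * exR r n F) := by
        have : (numCliques r Γ : ℝ) ≤ exR r n F := by exact_mod_cast h1
        gcongr
    _ = _ := by ring

theorem not_bigO {E : ℝ} {q : ℕ} (hE : (q : ℝ) < E) :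
    ¬ ((fun n : ℕ => (n : ℝ) ^ E) =O[atTop] (fun n : ℕ => (n : ℝ) ^ q)) := by
  intro h
  obtain ⟨c, hc⟩ := h.bound
  have h1 : Tendsto (fun n : ℕ => (n : ℝ) ^ (E - q)) atTop atTop :=
    (tendsto_rpow_atTop (by linarith)).comp tendsto_natCast_atTop_atTop
  obtain ⟨n, hn1, hn2, hn3⟩ := (hc.and ((h1.eventually_gt_atTop c).and
    (eventually_ge_atTop 1))).exists
  have hn0 : (0 : ℝ) < n := by exact_mod_cast hn3
  rw [Real.norm_of_nonneg (by positivity), Real.norm_of_nonneg (by positivity)] at hn1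
  have e : (n : ℝ) ^ E = (n : ℝ) ^ (E - q) * (n : ℝ) ^ q := by
    rw [← Real.rpow_natCast (n : ℝ) q, ← Real.rpow_add hn0]
    congr 1
    ring
  rw [e] at hn1
  have h2 := mul_lt_mul_of_pos_right hn2 (by positivity : (0 : ℝ) < (n : ℝ) ^ q)
  linarith

/-- hypergraphs containing the expansion of `K_{a,b}` with `a > r (r - 1) / 2` -/
theorem not_bigO_large {q a b : ℕ} (hq : 2 ≤ q) (ha : (q + 1).choose 2 < a)
    (hb : (q + 1 - 2) * (a - 1).factorial < b) {W : Type} {G : SimpleGraph W}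
    (hG : (completeBipartiteGraph (Fin a) (Fin b)).IsContained G) {U : Type} {F : Set (Set U)}
    (hF : Contains (expansionR (q + 1) G) F) :
    ¬ ((fun n : ℕ => (exR (q + 1) n F : ℝ)) =O[atTop] (fun n : ℕ => (n : ℝ) ^ q)) := by
  intro h
  have hc := le_choose hq
  exact not_bigO (ev_gt (by omega) ha) ((bigO_lower (by omega) (by omega) hb hG hF).trans h)

theorem Contains.refl {U : Type} (F : Set (Set U)) : Contains F F :=
  ⟨id, Function.injective_id, fun e he => by rwa [Set.image_id]⟩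

theorem thetaR {q a b b' : ℕ} (hq : 2 ≤ q) (ha : (q + 1).choose 2 ≤ a)
    (hb : (q + 1 - 2) * (a - 1).factorial < b') {W : Type} [Finite W] {G : SimpleGraph W}
    (hG : IsStacked a b G) (hKG : (completeBipartiteGraph (Fin a) (Fin b')).IsContained G) :
    (fun n : ℕ => (exR (q + 1) n (expansionR (q + 1) G) : ℝ)) =Θ[atTop]
      (fun n : ℕ => (n : ℝ) ^ ev (q + 1) a) := by
  have hc := le_choose hq
  exact ⟨bigO_upper hq (by omega) le_rfl ha hG (Contains.refl _),
    bigO_lower (by omega) (by omega) hb hKG (Contains.refl _)⟩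

theorem iffR {q a : ℕ} (hq : 2 ≤ q) (ha : 1 ≤ a) :
    (∀ b : ℕ, (fun n : ℕ => (exR (q + 1) n
      (expansionR (q + 1) (completeBipartiteGraph (Fin a) (Fin b))) : ℝ)) =O[atTop]
        (fun n : ℕ => (n : ℝ) ^ q)) ↔ a ≤ (q + 1).choose 2 := by
  constructor
  · intro h
    by_contra hcon
    push Not at hcon
    exact not_bigO_large hq hcon (Nat.lt_succ_self _) ⟨SimpleGraph.Copy.id _⟩ (Contains.refl _)
      (h _)
  · intro h b
    exact bigO_small hq ha h (isStacked_self a b) (Contains.refl _)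

end Pool.Agent.TH998.Exp
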