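import Pool.Agent.TH998.Exp.Clean

/-!
# Counting triangles in graphs without a copy of `G`
-/

set_option autoImplicit false

namespace Pool.Agent.TH998.Exp

open Finset Pool.Agent.TH998.Mex

variable {V : Type} [Fintype V] [DecidableEq V] {W : Type} [Fintype W] [DecidableEq W]

/-- `G` is not a subgraph of `Γ` -/
def NotIn (G : SimpleGraph W) (Γ : SimpleGraph V) : Prop :=
  ¬ ∃ f : W → V, Function.Injective f ∧ ∀ x y, G.Adj x y → Γ.Adj (f x) (f y)

/-- the common neighbours -/
noncomputable def cn (Γ : SimpleGraph V) (p q : V) : Finset V := nb Γ (nb Γ univ p) q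

theorem mem_cn {Γ : SimpleGraph V} {p q z : V} : z ∈ cn Γ p q ↔ Γ.Adj p z ∧ Γ.Adj q z := by
  unfold cn
  rw [mem_nb, mem_nb]
  simp

theorem cn_comm (Γ : SimpleGraph V) (p q : V) : cn Γ p q = cn Γ q p := by
  ext z
  rw [mem_cn, mem_cn, and_comm]

theorem type3 (G : SimpleGraph W) (I : Finset W) (hI : I.card = 3)
    (hG : ∀ x y, G.Adj x y → (x ∈ I ∧ y ∉ I) ∨ (x ∉ I ∧ y ∈ I)) : ∃ C : ℝ, 0 < C ∧
    ∀ (V : Type) [Fintype V] [DecidableEq V] (Γ : SimpleGraph V), NotIn G Γ →
      (cl Γ 3 univ : ℝ) ≤ C * (Fintype.card V : ℝ) ^ 2 := by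
  obtain ⟨C, hC, h⟩ := U1 2 3 (by norm_num) (by norm_num) (2 * Fintype.card W)
  refine ⟨C, hC, ?_⟩
  intro V _ _ Γ hΓ
  have h1 := h V Γ univ (by
    by_contra hcon
    obtain ⟨T, S, hT, hS, hadj⟩ := not_loc hcon
    apply hΓ
    let e : I ≃ T := (I.equivFinOfCardEq hI).trans (T.equivFinOfCardEq hT).symm
    obtain ⟨t0, ht0⟩ : T.Nonempty := by
      rw [← Finset.card_pos]
      omega
    let f0 : W → V := fun w => if h : w ∈ I then (e ⟨w, h⟩ : V) else t0
    have hf0 : ∀ w (hw : w ∈ I), f0 w = (e ⟨w, hw⟩ : V) := by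
      intro w hw
      simp only [f0]
      rw [dif_pos hw]
    have hinj : Set.InjOn f0 I := by
      intro w hw w' hw' hww
      rw [hf0 w hw, hf0 w' hw'] at hww
      have := e.injective (Subtype.ext hww)
      exact congrArg Subtype.val this
    obtain ⟨f, hf1, hf2, hf3⟩ := ext_inj I f0 hinj S hS.ge
    refine ⟨f, hf1, ?_⟩
    intro x y hxy
    rcases hG x y hxy with ⟨hx, hy⟩ | ⟨hx, hy⟩
    · rw [hf2 x hx, hf0 x hx]
      exact (hadj _ (hf3 y hy) _ (e ⟨x, hx⟩).2).symm
    · rw [hf2 y hy, hf0 y hy]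
      exact hadj _ (hf3 x hx) _ (e ⟨y, hy⟩).2)
  have h2 : ev (2 + 1) 3 = (2 : ℕ) := by
    unfold ev
    norm_num
  rw [h2, Real.rpow_natCast, Finset.card_univ] at h1
  exact h1

theorem cl3_le (Γ : SimpleGraph V) :
    cl Γ 3 univ ≤ ∑ v, ∑ w ∈ nb Γ univ v, (cn Γ v w).card := by
  refine (cl_le_sum Γ 2 univ).trans (Finset.sum_le_sum fun v _ => ?_)
  refine (cl_le_sum Γ 1 _).trans (Finset.sum_le_sum fun w _ => ?_)
  unfold cl
  refine le_trans (Finset.card_le_card
    (t := (cn Γ v w).image (fun z => ({z} : Finset V))) ?_) Finset.card_image_le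
  intro S hS
  rw [mem_cls, Finset.card_eq_one] at hS
  obtain ⟨h6, ⟨z, rfl⟩, _⟩ := hS
  rw [Finset.mem_image]
  refine ⟨z, ?_, rfl⟩
  show z ∈ nb Γ (nb Γ univ v) w
  simpa using h6

theorem type2 (G : SimpleGraph W) (a b u v : W) (hab : a ≠ b) (huv : u ≠ v) (hau : a ≠ u)
    (hav : a ≠ v) (hbu : b ≠ u) (hbv : b ≠ v)
    (hG : ∀ x y, G.Adj x y → (x = u ∧ y = v) ∨ (x = v ∧ y = u) ∨
      ((x = a ∨ x = b) ∧ y ≠ a ∧ y ≠ b) ∨ ((y = a ∨ y = b) ∧ x ≠ a ∧ x ≠ b))
    (Γ : SimpleGraph V) (hΓ : NotIn G Γ) :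
    cl Γ 3 univ ≤ (1 + (2 * Fintype.card W) ^ 2) * Fintype.card V ^ 2 := by
  classical
  set t := 2 * Fintype.card W with ht
  have key : ∀ y1 y2 x1 x2, Γ.Adj y1 y2 → x1 ≠ x2 → x1 ∈ cn Γ y1 y2 → x2 ∈ cn Γ y1 y2 →
      (cn Γ x1 x2).card < t := by
    intro y1 y2 x1 x2 hy hx h1 h2
    by_contra hcon
    push Not at hcon
    rw [mem_cn] at h1 h2
    apply hΓ
    let f0 : W → V := fun w => if w = a then x1 else if w = b then x2 else if w = u then y1 else y2
    have fa : f0 a = x1 := by simp [f0]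
    have fb : f0 b = x2 := by simp [f0, hab.symm]
    have fu : f0 u = y1 := by simp [f0, hau.symm, hbu.symm]
    have fv : f0 v = y2 := by simp [f0, hav.symm, hbv.symm, huv.symm]
    have hinj : Set.InjOn f0 (({a, b, u, v} : Finset W) : Set W) := by
      intro w hw w' hw' hww
      simp only [Finset.coe_insert, Finset.coe_singleton, Set.mem_insert_iff,
        Set.mem_singleton_iff] at hw hw'
      have e1 := hy.ne
      have e2 := h1.1.ne
      have e3 := h1.2.ne
      have e4 := h2.1.ne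
      have e5 := h2.2.ne
      rcases hw with rfl | rfl | rfl | rfl <;> rcases hw' with rfl | rfl | rfl | rfl <;>
        first
        | rfl
        | (exfalso; simp only [fa, fb, fu, fv] at hww; first
            | exact hx hww | exact hx hww.symm
            | exact e1 hww | exact e1 hww.symm | exact e2 hww | exact e2 hww.symm
            | exact e3 hww | exact e3 hww.symm | exact e4 hww | exact e4 hww.symm
            | exact e5 hww | exact e5 hww.symm)
    obtain ⟨f, hf1, hf2, hf3⟩ := ext_inj {a, b, u, v} f0 hinj (cn Γ x1 x2) hcon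
    have ga : f a = x1 := by rw [hf2 a (by simp), fa]
    have gb : f b = x2 := by rw [hf2 b (by simp), fb]
    have gu : f u = y1 := by rw [hf2 u (by simp), fu]
    have gv : f v = y2 := by rw [hf2 v (by simp), fv]
    have hA : ∀ x y, (x = a ∨ x = b) → y ≠ a → y ≠ b → Γ.Adj (f x) (f y) := by
      intro x y hx hya hyb
      by_cases hyu : y = u
      · subst hyu
        rcases hx with rfl | rfl
        · rw [ga, gu]; exact h1.1.symm
        · rw [gb, gu]; exact h2.1.symm
      · by_cases hyv : y = v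
        · subst hyv
          rcases hx with rfl | rfl
          · rw [ga, gv]; exact h1.2.symm
          · rw [gb, gv]; exact h2.2.symm
        · have h3 := hf3 y (by simp [hya, hyb, hyu, hyv])
          rw [mem_cn] at h3
          rcases hx with rfl | rfl
          · rw [ga]; exact h3.1
          · rw [gb]; exact h3.2
    refine ⟨f, hf1, ?_⟩
    intro x y hxy
    rcases hG x y hxy with ⟨rfl, rfl⟩ | ⟨rfl, rfl⟩ | ⟨h3, h4, h5⟩ | ⟨h3, h4, h5⟩
    · rw [gu, gv]; exact hy
    · rw [gu, gv]; exact hy.symm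
    · exact hA x y h3 h4 h5
    · exact (hA y x h3 h4 h5).symm
  set P : Finset (V × V) := univ.filter fun p => Γ.Adj p.1 p.2 with hP
  have hsum : ∑ v, ∑ w ∈ nb Γ univ v, (cn Γ v w).card = ∑ p ∈ P, (cn Γ p.1 p.2).card := by
    rw [hP, Finset.sum_filter, ← Finset.univ_product_univ, Finset.sum_product]
    refine Finset.sum_congr rfl fun v _ => ?_
    rw [← Finset.sum_filter]
    refine Finset.sum_congr ?_ fun _ _ => rfl
    ext w
    rw [mem_nb, Finset.mem_filter]
  have hc : ∀ p ∈ P, (cn Γ p.1 p.2).card ≤ 1 + (cn Γ p.1 p.2).offDiag.card := by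
    intro p _
    rw [Finset.offDiag_card]
    rcases Nat.eq_zero_or_pos (cn Γ p.1 p.2).card with h0 | h0
    · rw [h0]; omega
    · obtain ⟨c, hc⟩ : ∃ c, (cn Γ p.1 p.2).card = c + 1 := ⟨_, (Nat.sub_add_cancel h0).symm⟩
      rw [hc]
      have : (c + 1) * (c + 1) - (c + 1) = c * (c + 1) := by
        rw [Nat.sub_eq_iff_eq_add (by nlinarith)]
        ring
      rw [this]
      rcases Nat.eq_zero_or_pos c with h1 | h1
      · simp [h1]
      · nlinarith
  have hPc : P.card ≤ Fintype.card V ^ 2 := by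
    refine (Finset.card_le_univ _).trans ?_
    rw [Fintype.card_prod, pow_two]
  have hsw : ∑ p ∈ P, (cn Γ p.1 p.2).offDiag.card ≤ Fintype.card V ^ 2 * t ^ 2 := by
    have h1 : ∀ p ∈ P, (cn Γ p.1 p.2).offDiag.card =
        ∑ q ∈ (univ : Finset V).offDiag, if q.1 ∈ cn Γ p.1 p.2 ∧ q.2 ∈ cn Γ p.1 p.2
          then 1 else 0 := by
      intro p _
      rw [← Finset.card_filter]
      congr 1
      ext q
      rw [Finset.mem_offDiag, Finset.mem_filter, Finset.mem_offDiag]
      simp only [Finset.mem_univ, true_and]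
      tauto
    rw [Finset.sum_congr rfl h1, Finset.sum_comm]
    calc ∑ q ∈ (univ : Finset V).offDiag, ∑ p ∈ P,
          (if q.1 ∈ cn Γ p.1 p.2 ∧ q.2 ∈ cn Γ p.1 p.2 then 1 else 0)
        ≤ ∑ _q ∈ (univ : Finset V).offDiag, t ^ 2 := by
          refine Finset.sum_le_sum fun q hq => ?_
          rw [← Finset.card_filter]
          have hq' : q.1 ≠ q.2 := (Finset.mem_offDiag.1 hq).2.2
          rcases (P.filter fun p => q.1 ∈ cn Γ p.1 p.2 ∧ q.2 ∈ cn Γ p.1 p.2).eq_empty_or_nonempty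
            with h2 | ⟨p0, hp0⟩
          · simp [h2]
          · rw [Finset.mem_filter, hP, Finset.mem_filter] at hp0
            have h3 := key p0.1 p0.2 q.1 q.2 hp0.1.2 hq' hp0.2.1 hp0.2.2
            have h4 : (P.filter fun p => q.1 ∈ cn Γ p.1 p.2 ∧ q.2 ∈ cn Γ p.1 p.2) ⊆
                (cn Γ q.1 q.2) ×ˢ (cn Γ q.1 q.2) := by
              intro p hp
              rw [Finset.mem_filter] at hp
              have h5 := mem_cn.1 hp.2.1
              have h6 := mem_cn.1 hp.2.2
              rw [Finset.mem_product, mem_cn, mem_cn]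
              exact ⟨⟨h5.1.symm, h6.1.symm⟩, ⟨h5.2.symm, h6.2.symm⟩⟩
            refine (Finset.card_le_card h4).trans ?_
            rw [Finset.card_product, pow_two]
            exact Nat.mul_le_mul h3.le h3.le
      _ ≤ Fintype.card V ^ 2 * t ^ 2 := by
          rw [Finset.sum_const, smul_eq_mul]
          apply Nat.mul_le_mul_right
          refine (Finset.card_le_univ _).trans ?_
          rw [Fintype.card_prod, pow_two]
  calc cl Γ 3 univ ≤ ∑ p ∈ P, (cn Γ p.1 p.2).card := (cl3_le Γ).trans hsum.le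
    _ ≤ ∑ p ∈ P, (1 + (cn Γ p.1 p.2).offDiag.card) := Finset.sum_le_sum hc
    _ = P.card + ∑ p ∈ P, (cn Γ p.1 p.2).offDiag.card := by
        rw [Finset.sum_add_distrib, Finset.sum_const, smul_eq_mul, mul_one]
    _ ≤ Fintype.card V ^ 2 + Fintype.card V ^ 2 * t ^ 2 := Nat.add_le_add hPc hsw
    _ = _ := by ring

theorem type1a (G : SimpleGraph W) (x c : W) (hxc : x ≠ c)
    (hG : ∀ u v, G.Adj u v → u = x ∨ v = x ∨ u = c ∨ v = c)
    (Γ : SimpleGraph V) (hΓ : NotIn G Γ)
    (hD : ∀ p q, Γ.Adj p q → 2 * Fintype.card W ≤ (cn Γ p q).card) : ∀ p q, ¬ Γ.Adj p q := by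
  classical
  intro p q hpq
  apply hΓ
  let f0 : W → V := fun w => if w = x then p else q
  have fx : f0 x = p := by simp [f0]
  have fc : f0 c = q := by simp [f0, hxc.symm]
  have hinj : Set.InjOn f0 (({x, c} : Finset W) : Set W) := by
    intro w hw w' hw' hww
    simp only [Finset.coe_insert, Finset.coe_singleton, Set.mem_insert_iff,
      Set.mem_singleton_iff] at hw hw'
    rcases hw with rfl | rfl <;> rcases hw' with rfl | rfl
    · rfl
    · rw [fx, fc] at hww
      exact absurd hww hpq.ne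
    · rw [fx, fc] at hww
      exact absurd hww.symm hpq.ne
    · rfl
  obtain ⟨f, hf1, hf2, hf3⟩ := ext_inj {x, c} f0 hinj (cn Γ p q) (hD p q hpq)
  have gx : f x = p := by rw [hf2 x (by simp), fx]
  have gc : f c = q := by rw [hf2 c (by simp), fc]
  have hA : ∀ y, y ≠ x → Γ.Adj p (f y) := by
    intro y hy
    by_cases hyc : y = c
    · subst hyc
      rw [gc]
      exact hpq
    · exact (mem_cn.1 (hf3 y (by simp [hy, hyc]))).1
  have hB : ∀ y, y ≠ c → Γ.Adj q (f y) := by
    intro y hy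
    by_cases hyx : y = x
    · subst hyx
      rw [gx]
      exact hpq.symm
    · exact (mem_cn.1 (hf3 y (by simp [hy, hyx]))).2
  refine ⟨f, hf1, ?_⟩
  intro u v huv
  rcases hG u v huv with rfl | rfl | rfl | rfl
  · rw [gx]
    exact hA v huv.ne.symm
  · rw [gx]
    exact (hA u huv.ne).symm
  · rw [gc]
    exact hB v huv.ne.symm
  · rw [gc]
    exact (hB u huv.ne).symm

theorem type1b (G : SimpleGraph W) (x u v w z : W) (hxu : x ≠ u) (hxv : x ≠ v) (hxw : x ≠ w)
    (hxz : x ≠ z) (huv : u ≠ v) (huw : u ≠ w) (huz : u ≠ z) (hvw : v ≠ w) (hvz : v ≠ z)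
    (hwz : w ≠ z)
    (hG : ∀ s t, G.Adj s t → s = x ∨ t = x ∨ (s = u ∧ t = v) ∨ (s = v ∧ t = u) ∨
      (s = w ∧ t = z) ∨ (s = z ∧ t = w))
    (Γ : SimpleGraph V) (hΓ : NotIn G Γ)
    (hD : ∀ p q, Γ.Adj p q → 2 * Fintype.card W ≤ (cn Γ p q).card) : ∀ p q, ¬ Γ.Adj p q := by
  classical
  intro p q hpq
  have hW : 2 ≤ Fintype.card W := Fintype.one_lt_card_iff.2 ⟨x, u, hxu⟩
  have hpick : ∀ a b c d : V, Γ.Adj a b → ∃ e ∈ cn Γ a b, e ≠ c ∧ e ≠ d := by
    intro a b c d hab
    have h1 := hD a b hab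
    have h2 : ({c, d} : Finset V).card < (cn Γ a b).card := by
      have : ({c, d} : Finset V).card ≤ 2 := Finset.card_le_two
      omega
    obtain ⟨e, he1, he2⟩ := Finset.exists_mem_notMem_of_card_lt_card h2
    rw [Finset.mem_insert, Finset.mem_singleton, not_or] at he2
    exact ⟨e, he1, he2⟩
  obtain ⟨q', hq', _, _⟩ := hpick p q p p hpq
  rw [mem_cn] at hq'
  obtain ⟨r, hr, hrq, hrq'⟩ := hpick p q q q' hpq
  rw [mem_cn] at hr
  obtain ⟨r', hr', hr'q, hr'q'⟩ := hpick p r q q' hr.1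
  rw [mem_cn] at hr'
  apply hΓ
  let f0 : W → V := fun a => if a = x then p else if a = u then q else if a = v then q' else
    if a = w then r else r'
  have fx : f0 x = p := by simp [f0]
  have fu : f0 u = q := by simp [f0, hxu.symm]
  have fv : f0 v = q' := by simp [f0, hxv.symm, huv.symm]
  have fw : f0 w = r := by simp [f0, hxw.symm, huw.symm, hvw.symm]
  have fz : f0 z = r' := by simp [f0, hxz.symm, huz.symm, hvz.symm, hwz.symm]
  have e1 := hpq.ne
  have e2 := hq'.1.ne
  have e3 := hq'.2.ne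
  have e4 := hr.1.ne
  have e5 := hr'.1.ne
  have e6 := hr'.2.ne
  have hinj : Set.InjOn f0 (({x, u, v, w, z} : Finset W) : Set W) := by
    intro a ha a' ha' haa
    simp only [Finset.coe_insert, Finset.coe_singleton, Set.mem_insert_iff,
      Set.mem_singleton_iff] at ha ha'
    rcases ha with rfl | rfl | rfl | rfl | rfl <;> rcases ha' with rfl | rfl | rfl | rfl | rfl <;>
      first
      | rfl
      | (exfalso; simp only [fx, fu, fv, fw, fz] at haa; first
          | exact e1 haa | exact e1 haa.symm | exact e2 haa | exact e2 haa.symm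
          | exact e3 haa | exact e3 haa.symm | exact e4 haa | exact e4 haa.symm
          | exact e5 haa | exact e5 haa.symm | exact e6 haa | exact e6 haa.symm
          | exact hrq haa | exact hrq haa.symm | exact hrq' haa | exact hrq' haa.symm
          | exact hr'q haa | exact hr'q haa.symm | exact hr'q' haa | exact hr'q' haa.symm)
  have hNp : 2 * Fintype.card W ≤ (nb Γ univ p).card := by
    refine (hD p q hpq).trans (Finset.card_le_card ?_)
    intro s hs
    rw [mem_nb]
    exact ⟨Finset.mem_univ _, (mem_cn.1 hs).1⟩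
  obtain ⟨f, hf1, hf2, hf3⟩ := ext_inj {x, u, v, w, z} f0 hinj (nb Γ univ p) hNp
  have gx : f x = p := by rw [hf2 x (by simp), fx]
  have gu : f u = q := by rw [hf2 u (by simp), fu]
  have gv : f v = q' := by rw [hf2 v (by simp), fv]
  have gw : f w = r := by rw [hf2 w (by simp), fw]
  have gz : f z = r' := by rw [hf2 z (by simp), fz]
  have hA : ∀ y, y ≠ x → Γ.Adj p (f y) := by
    intro y hy
    by_cases h1 : y = u
    · subst h1; rw [gu]; exact hpq
    by_cases h2 : y = v
    · subst h2; rw [gv]; exact hq'.1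
    by_cases h3 : y = w
    · subst h3; rw [gw]; exact hr.1
    by_cases h4 : y = z
    · subst h4; rw [gz]; exact hr'.1
    · exact (mem_nb.1 (hf3 y (by simp [hy, h1, h2, h3, h4]))).2
  refine ⟨f, hf1, ?_⟩
  intro s t hst
  rcases hG s t hst with rfl | rfl | ⟨rfl, rfl⟩ | ⟨rfl, rfl⟩ | ⟨rfl, rfl⟩ | ⟨rfl, rfl⟩
  · rw [gx]
    exact hA t hst.ne.symm
  · rw [gx]
    exact (hA s hst.ne).symm
  · rw [gu, gv]; exact hq'.2
  · rw [gu, gv]; exact hq'.2.symm
  · rw [gw, gz]; exact hr'.2
  · rw [gw, gz]; exact hr'.2.symm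

theorem cl3_of_empty (Γ : SimpleGraph V) (h : ∀ p q, ¬ Γ.Adj p q) : cl Γ 3 univ = 0 := by
  have h1 := cl3_le Γ
  have h2 : ∑ v, ∑ w ∈ nb Γ univ v, (cn Γ v w).card = 0 := by
    refine Finset.sum_eq_zero fun v _ => Finset.sum_eq_zero fun w hw => ?_
    exact absurd (mem_nb.1 hw).2 (h v w)
  omega

end Pool.Agent.TH998.Exp
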